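import Mathlib

/-!
# Sparse factorisations in a field with an independent group

`F` is a field, `K` a subfield and `G` a set of nonzero elements closed under products and
quotients, such that elements of `G` in different classes modulo `K` are linearly independent over
`K` (in the form `cs`) and there are weights (`wt`). A nonzero element `N` has up to factors from
`G` and `K` only finitely many factorisations `N = a b` in which `a` and `b` are sums of `k` terms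
`c u`, `c ∈ K`, `u ∈ G`.
-/

set_option autoImplicit false

open Polynomial

namespace Pool.Agent.K3h74.SS

variable {F : Type} [Field F]

/-- the assumptions -/
structure Sys (K : Subfield F) (G : Set F) : Prop where
  ne : ∀ g ∈ G, g ≠ 0
  mul : ∀ g ∈ G, ∀ h ∈ G, g * h ∈ G
  div : ∀ g ∈ G, ∀ h ∈ G, g / h ∈ G
  cs : ∀ (ι : Type) (A : Finset ι) (a g : ι → F) (w : ι → ℕ), (∀ i ∈ A, a i ∈ K) →
    (∀ i ∈ A, g i ∈ G) → (∀ i ∈ A, ∀ j ∈ A, g i / g j ∈ K → w i = w j) →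
    ∑ i ∈ A, a i * g i = 0 → ∑ i ∈ A, C (a i * g i) * X ^ (w i) = 0
  wt : ∀ (τ : Type) [Fintype τ] (u : τ → F), (∀ t, u t ≠ 0) → ∃ l : τ → ℕ,
    (∀ a b c d : τ, (u a * u b) / (u c * u d) ∈ K → l a + l b = l c + l d) ∧
    ∀ a b : τ, l a = l b → u a / u b ∈ K

variable {K : Subfield F} {G : Set F}

/-- nonempty sums with nonzero coefficients over inequivalent elements do not vanish -/
theorem Sys.sum_ne (h : Sys K G) {ι : Type} [DecidableEq ι] (J : Finset ι) (c u : ι → F)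
    (hJ : J.Nonempty) (hc : ∀ j ∈ J, c j ∈ K ∧ c j ≠ 0) (hu : ∀ j ∈ J, u j ∈ G)
    (hne : ∀ i ∈ J, ∀ j ∈ J, i ≠ j → u i / u j ∉ K) : ∑ j ∈ J, c j * u j ≠ 0 := by
  intro h0
  obtain ⟨j0, hj0⟩ := hJ
  have h1 := h.cs ι J c u (fun j => if j = j0 then 1 else 0) (fun j hj => (hc j hj).1) hu (by
    intro i hi j hj hij
    by_cases hij' : i = j
    · rw [hij']
    · exact absurd hij (hne i hi j hj hij')) h0
  have h2 := congrArg (fun p : F[X] => p.coeff 1) h1
  simp only [Polynomial.finsetSum_coeff, Polynomial.coeff_C_mul, Polynomial.coeff_X_pow,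
    Polynomial.coeff_zero] at h2
  rw [Finset.sum_eq_single j0] at h2
  · rw [if_pos rfl, if_pos rfl, mul_one] at h2
    rcases mul_eq_zero.1 h2 with h3 | h3
    · exact (hc j0 hj0).2 h3
    · exact h.ne _ (hu j0 hj0) h3
  · intro j _ hj
    rw [if_neg hj]
    simp
  · intro hj
    exact absurd hj0 hj

/-- a reduced representation -/
structure Red (K : Subfield F) (G : Set F) {κ : Type} (J : Finset κ) (c u : κ → F) (a : F) :
    Prop where
  hu : ∀ j, u j ∈ G
  hc : ∀ j ∈ J, c j ∈ K ∧ c j ≠ 0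
  hne : ∀ i ∈ J, ∀ j ∈ J, i ≠ j → u i / u j ∉ K
  ha : a = ∑ j ∈ J, c j * u j

/-- every sparse element has a reduced representation -/
theorem Sys.red (h : Sys K G) {κ : Type} [Fintype κ] [DecidableEq κ] (c u : κ → F)
    (hc : ∀ j, c j ∈ K) (hu : ∀ j, u j ∈ G) (a : F) (ha : a = ∑ j, c j * u j) :
    ∃ (J : Finset κ) (c' : κ → F), Red K G J c' u a := by
  classical
  have hex : ∃ m : ℕ, ∃ (J : Finset κ) (c' : κ → F), J.card = m ∧ (∀ j, c' j ∈ K) ∧
      a = ∑ j ∈ J, c' j * u j := ⟨_, Finset.univ, c, rfl, hc, ha⟩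
  obtain ⟨J, c', hm, hc', ha'⟩ := Nat.find_spec hex
  have hmin : ∀ (J' : Finset κ) (c'' : κ → F), J'.card < J.card → (∀ j, c'' j ∈ K) →
      a ≠ ∑ j ∈ J', c'' j * u j := by
    intro J' c'' hlt h1 h2
    rw [hm] at hlt
    exact Nat.find_min hex hlt ⟨J', c'', rfl, h1, h2⟩
  refine ⟨J, c', hu, ?_, ?_, ha'⟩
  · intro j hj
    refine ⟨hc' j, fun h0 => ?_⟩
    refine hmin (J.erase j) c' (Finset.card_erase_lt_of_mem hj) hc' ?_
    rw [ha', ← Finset.add_sum_erase J _ hj, h0, zero_mul, zero_add]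
  · intro i hi j hj hij hmem
    refine hmin (J.erase i) (fun x => if x = j then c' i * (u i / u j) + c' j else c' x)
      (Finset.card_erase_lt_of_mem hi) ?_ ?_
    · intro x
      beta_reduce
      split_ifs
      · exact K.add_mem (K.mul_mem (hc' i) hmem) (hc' j)
      · exact hc' x
    · have hj' : j ∈ J.erase i := Finset.mem_erase.2 ⟨fun h => hij h.symm, hj⟩
      rw [ha', ← Finset.add_sum_erase J _ hi, ← Finset.add_sum_erase _ _ hj',
        ← Finset.add_sum_erase (J.erase i) _ hj']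
      rw [if_pos rfl]
      have h1 : ∑ x ∈ (J.erase i).erase j, (if x = j then c' i * (u i / u j) + c' j else c' x) * u x
          = ∑ x ∈ (J.erase i).erase j, c' x * u x := by
        refine Finset.sum_congr rfl fun x hx => ?_
        rw [if_neg (Finset.ne_of_mem_erase hx)]
      rw [h1]
      have h2 : u j ≠ 0 := h.ne _ (hu j)
      field_simp
      ring

/-- the polynomial identity for two factorisations of the same element -/
theorem Sys.two (h : Sys K G) {κ : Type} (J J' J0 J0' : Finset κ)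
    (c u d v c0 u0 d0 v0 : κ → F) (N : F)
    (hu : ∀ j, u j ∈ G) (hv : ∀ j, v j ∈ G) (hu0 : ∀ j, u0 j ∈ G) (hv0 : ∀ j, v0 j ∈ G)
    (hc : ∀ j ∈ J, c j ∈ K) (hd : ∀ j ∈ J', d j ∈ K) (hc0 : ∀ j ∈ J0, c0 j ∈ K)
    (hd0 : ∀ j ∈ J0', d0 j ∈ K)
    (hN : (∑ j ∈ J, c j * u j) * ∑ j ∈ J', d j * v j = N)
    (hN0 : (∑ j ∈ J0, c0 j * u0 j) * ∑ j ∈ J0', d0 j * v0 j = N)
    (w w0 : κ × κ → ℕ)
    (h1 : ∀ p ∈ J ×ˢ J', ∀ q ∈ J ×ˢ J', (u p.1 * v p.2) / (u q.1 * v q.2) ∈ K → w p = w q)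
    (h2 : ∀ p ∈ J ×ˢ J', ∀ q ∈ J0 ×ˢ J0', (u p.1 * v p.2) / (u0 q.1 * v0 q.2) ∈ K → w p = w0 q)
    (h3 : ∀ p ∈ J0 ×ˢ J0', ∀ q ∈ J0 ×ˢ J0', (u0 p.1 * v0 p.2) / (u0 q.1 * v0 q.2) ∈ K →
      w0 p = w0 q) :
    ∑ p ∈ J ×ˢ J', C ((c p.1 * u p.1) * (d p.2 * v p.2)) * X ^ (w p) =
      ∑ p ∈ J0 ×ˢ J0', C ((c0 p.1 * u0 p.1) * (d0 p.2 * v0 p.2)) * X ^ (w0 p) := by
  classical
  have key := h.cs ((κ × κ) ⊕ (κ × κ)) ((J ×ˢ J').disjSum (J0 ×ˢ J0'))
    (Sum.elim (fun p => c p.1 * d p.2) (fun p => -(c0 p.1 * d0 p.2)))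
    (Sum.elim (fun p => u p.1 * v p.2) (fun p => u0 p.1 * v0 p.2))
    (Sum.elim w w0) ?_ ?_ ?_ ?_
  · rw [Finset.sum_disjSum] at key
    simp only [Sum.elim_inl, Sum.elim_inr] at key
    have e1 : ∑ p ∈ J ×ˢ J', C ((c p.1 * d p.2) * (u p.1 * v p.2)) * (X : F[X]) ^ (w p) =
        ∑ p ∈ J ×ˢ J', C ((c p.1 * u p.1) * (d p.2 * v p.2)) * X ^ (w p) := by
      refine Finset.sum_congr rfl fun p _ => ?_
      congr 2
      ring
    have e2 : ∑ p ∈ J0 ×ˢ J0', C (-(c0 p.1 * d0 p.2) * (u0 p.1 * v0 p.2)) * (X : F[X]) ^ (w0 p) =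
        - ∑ p ∈ J0 ×ˢ J0', C ((c0 p.1 * u0 p.1) * (d0 p.2 * v0 p.2)) * X ^ (w0 p) := by
      rw [← Finset.sum_neg_distrib]
      refine Finset.sum_congr rfl fun p _ => ?_
      have e3 : -(c0 p.1 * d0 p.2) * (u0 p.1 * v0 p.2) =
          -((c0 p.1 * u0 p.1) * (d0 p.2 * v0 p.2)) := by ring
      rw [e3, C_neg, neg_mul]
    rw [e1, e2] at key
    exact add_neg_eq_zero.1 key
  · intro i hi
    rw [Finset.mem_disjSum] at hi
    rcases hi with ⟨p, hp, rfl⟩ | ⟨p, hp, rfl⟩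
    · rw [Finset.mem_product] at hp
      exact K.mul_mem (hc _ hp.1) (hd _ hp.2)
    · rw [Finset.mem_product] at hp
      exact K.neg_mem (K.mul_mem (hc0 _ hp.1) (hd0 _ hp.2))
  · intro i hi
    rcases i with p | p
    · exact h.mul _ (hu _) _ (hv _)
    · exact h.mul _ (hu0 _) _ (hv0 _)
  · intro i hi j hj hij
    rw [Finset.mem_disjSum] at hi hj
    rcases hi with ⟨p, hp, rfl⟩ | ⟨p, hp, rfl⟩ <;> rcases hj with ⟨q, hq, rfl⟩ | ⟨q, hq, rfl⟩
    · exact h1 p hp q hq hij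
    · exact h2 p hp q hq hij
    · have := K.inv_mem hij
      simp only [Sum.elim_inl, Sum.elim_inr, inv_div] at this
      exact (h2 q hq p hp this).symm
    · exact h3 p hp q hq hij
  · rw [Finset.sum_disjSum]
    simp only [Sum.elim_inl, Sum.elim_inr]
    have e1 : ∑ p ∈ J ×ˢ J', (c p.1 * d p.2) * (u p.1 * v p.2) = N := by
      rw [← hN, Finset.sum_mul_sum, Finset.sum_product]
      refine Finset.sum_congr rfl fun i _ => Finset.sum_congr rfl fun j _ => ?_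
      ring
    have e2 : ∑ p ∈ J0 ×ˢ J0', -(c0 p.1 * d0 p.2) * (u0 p.1 * v0 p.2) = -N := by
      rw [← hN0, Finset.sum_mul_sum, Finset.sum_product, ← Finset.sum_neg_distrib]
      refine Finset.sum_congr rfl fun i _ => ?_
      rw [← Finset.sum_neg_distrib]
      refine Finset.sum_congr rfl fun j _ => ?_
      ring
    rw [e1, e2, add_neg_cancel]

/-- the product of two such polynomials -/
theorem prod_poly {κ : Type} (J J' : Finset κ) (c d : κ → F) (l l' : κ → ℕ) :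
    (∑ j ∈ J, C (c j) * X ^ (l j)) * ∑ j ∈ J', C (d j) * X ^ (l' j) =
      ∑ p ∈ J ×ˢ J', C (c p.1 * d p.2) * (X : F[X]) ^ (l p.1 + l' p.2) := by
  rw [Finset.sum_mul_sum, Finset.sum_product]
  refine Finset.sum_congr rfl fun i _ => Finset.sum_congr rfl fun j _ => ?_
  rw [C_mul, pow_add]
  ring

/-- if a product of two such polynomials is a monomial then all the weights are equal -/
theorem Sys.mono (h : Sys K G) {κ : Type} (J : Finset κ) (c u : κ → F) (a : F)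
    (hr : Red K G J c u a) (l : κ → ℕ) (B : F[X]) (N : F) (hN : N ≠ 0) (n : ℕ)
    (hAB : (∑ j ∈ J, C (c j * u j) * X ^ (l j)) * B = C N * X ^ n) :
    ∀ i ∈ J, ∀ j ∈ J, l i = l j := by
  classical
  have hdvd : (∑ j ∈ J, C (c j * u j) * X ^ (l j)) ∣ (X : F[X]) ^ n := by
    refine ⟨B * C N⁻¹, ?_⟩
    rw [← mul_assoc, hAB, mul_right_comm, ← C_mul, mul_inv_cancel₀ hN, C_1, one_mul]
  obtain ⟨e, -, hA⟩ := (dvd_prime_pow (Polynomial.prime_X (R := F)) n).1 hdvd
  obtain ⟨g, hg⟩ := hA.symm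
  obtain ⟨g', -, hg'⟩ := Polynomial.isUnit_iff.1 g.isUnit
  have hkey : ∀ i ∈ J, l i = e := by
    intro i hi
    by_contra hne
    have h1 := congrArg (fun p : F[X] => p.coeff (l i)) hg
    simp only [← hg', Polynomial.coeff_mul_C, Polynomial.coeff_X_pow, if_neg hne, zero_mul,
      Polynomial.finsetSum_coeff, Polynomial.coeff_C_mul] at h1
    have h2 : ∑ x ∈ J, c x * u x * (if l i = l x then 1 else 0) =
        ∑ x ∈ J.filter (fun x => l i = l x), c x * u x := by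
      rw [Finset.sum_filter]
      refine Finset.sum_congr rfl fun x _ => ?_
      split_ifs <;> simp
    rw [h2] at h1
    refine h.sum_ne (J.filter (fun x => l i = l x)) c u ⟨i, Finset.mem_filter.2 ⟨hi, rfl⟩⟩
      (fun j hj => hr.hc j (Finset.mem_filter.1 hj).1) (fun j _ => hr.hu j)
      (fun x hx y hy hxy => hr.hne x (Finset.mem_filter.1 hx).1 y (Finset.mem_filter.1 hy).1 hxy)
      h1.symm
  intro i hi j hj
  rw [hkey i hi, hkey j hj]

end Pool.Agent.K3h74.SS
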