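import Mathlib
import Pool.Agent.K3h74.SS.Alg

/-!
# Finiteness of the sparse factorisations
-/

set_option autoImplicit false

open Polynomial

namespace Pool.Agent.K3h74.SS

variable {F : Type} [Field F] {K : Subfield F} {G : Set F}

/-- a factorisation `N = a b` into sparse factors with reduced representations -/
structure Fac (K : Subfield F) (G : Set F) {κ : Type} (N : F) (J J' : Finset κ)
    (c u d v : κ → F) (a b : F) : Prop where
  ra : Red K G J c u a
  rb : Red K G J' d v b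
  hN : a * b = N

/-- two factorisations whose supports have the same pattern (relative to a third one) -/
structure Same (K : Subfield F) {κ : Type} (J J' J0 J0' : Finset κ)
    (u v u' v' u0 v0 : κ → F) : Prop where
  h1 : ∀ p ∈ J ×ˢ J', ∀ q ∈ J ×ˢ J',
    (u p.1 * v p.2) / (u q.1 * v q.2) ∈ K ↔ (u' p.1 * v' p.2) / (u' q.1 * v' q.2) ∈ K
  h2 : ∀ p ∈ J ×ˢ J', ∀ q ∈ J0 ×ˢ J0',
    (u p.1 * v p.2) / (u0 q.1 * v0 q.2) ∈ K ↔ (u' p.1 * v' p.2) / (u0 q.1 * v0 q.2) ∈ K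

theorem Same.symm {κ : Type} {J J' J0 J0' : Finset κ}
    {u v u' v' u0 v0 : κ → F} (h : Same K J J' J0 J0' u v u' v' u0 v0) :
    Same K J J' J0 J0' u' v' u v u0 v0 :=
  ⟨fun p hp q hq => (h.h1 p hp q hq).symm, fun p hp q hq => (h.h2 p hp q hq).symm⟩

/-- some term of the product is equivalent to a term of the reference product -/
theorem Sys.meet (h : Sys K G) {κ : Type} {N : F} (hN : N ≠ 0) {J J' J0 J0' : Finset κ}
    {c u d v c0 u0 d0 v0 : κ → F} {a b a0 b0 : F} (h1 : Fac K G N J J' c u d v a b)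
    (h0 : Fac K G N J0 J0' c0 u0 d0 v0 a0 b0) :
    ∃ p ∈ J ×ˢ J', ∃ q ∈ J0 ×ˢ J0', (u p.1 * v p.2) / (u0 q.1 * v0 q.2) ∈ K := by
  classical
  by_contra hcon
  push Not at hcon
  have key := h.two J J' J0 J0' c u d v c0 u0 d0 v0 N h1.ra.hu h1.rb.hu h0.ra.hu h0.rb.hu
    (fun j hj => (h1.ra.hc j hj).1) (fun j hj => (h1.rb.hc j hj).1)
    (fun j hj => (h0.ra.hc j hj).1) (fun j hj => (h0.rb.hc j hj).1)
    (by rw [← h1.ra.ha, ← h1.rb.ha, h1.hN]) (by rw [← h0.ra.ha, ← h0.rb.ha, h0.hN])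
    (fun _ => 0) (fun _ => 1) (fun _ _ _ _ _ => rfl)
    (fun p hp q hq hpq => absurd hpq (hcon p hp q hq)) (fun _ _ _ _ _ => rfl)
  have h2 := congrArg (fun p : F[X] => p.coeff 0) key
  simp only [Polynomial.finsetSum_coeff, Polynomial.coeff_C_mul, Polynomial.coeff_X_pow,
    mul_ite, mul_one, mul_zero, if_true, zero_ne_one, if_false, Finset.sum_const_zero] at h2
  apply hN
  rw [← h1.hN, h1.ra.ha, h1.rb.ha, Finset.sum_mul_sum, ← Finset.sum_product', ← h2]

/-- **Rigidity of the supports.** -/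
theorem Sys.rigid (h : Sys K G) {κ : Type} [Fintype κ] {N : F} (hN : N ≠ 0)
    {J J' J0 J0' : Finset κ} {c u d v c' u' d' v' c0 u0 d0 v0 : κ → F} {a b a' b' a0 b0 : F}
    (h1 : Fac K G N J J' c u d v a b) (h1' : Fac K G N J J' c' u' d' v' a' b')
    (h0 : Fac K G N J0 J0' c0 u0 d0 v0 a0 b0) (hs : Same K J J' J0 J0' u v u' v' u0 v0) :
    ∀ i ∈ J, ∀ j ∈ J, (u i / u' i) / (u j / u' j) ∈ K := by
  classical
  have hu := h1.ra.hu
  have hv := h1.rb.hu
  have hu' := h1'.ra.hu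
  have hv' := h1'.rb.hu
  have nu : ∀ j, u j ≠ 0 := fun j => h.ne _ (hu j)
  have nv : ∀ j, v j ≠ 0 := fun j => h.ne _ (hv j)
  have nu' : ∀ j, u' j ≠ 0 := fun j => h.ne _ (hu' j)
  have nv' : ∀ j, v' j ≠ 0 := fun j => h.ne _ (hv' j)
  obtain ⟨l, hl1, hl2⟩ := h.wt (Unit ⊕ (κ ⊕ κ))
    (Sum.elim (fun _ => 1) (Sum.elim (fun j => u j / u' j) (fun j => v j / v' j))) (by
      rintro (t | t | t)
      · exact one_ne_zero
      · exact div_ne_zero (nu t) (nu' t)
      · exact div_ne_zero (nv t) (nv' t))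
  -- the polynomial identity
  have key := h.two J J' J0 J0' c' u' d' v' c0 u0 d0 v0 N hu' hv' h0.ra.hu h0.rb.hu
    (fun j hj => (h1'.ra.hc j hj).1) (fun j hj => (h1'.rb.hc j hj).1)
    (fun j hj => (h0.ra.hc j hj).1) (fun j hj => (h0.rb.hc j hj).1)
    (by rw [← h1'.ra.ha, ← h1'.rb.ha, h1'.hN]) (by rw [← h0.ra.ha, ← h0.rb.ha, h0.hN])
    (fun p => l (Sum.inr (Sum.inl p.1)) + l (Sum.inr (Sum.inr p.2)))
    (fun _ => l (Sum.inl ()) + l (Sum.inl ())) (by
      intro p hp q hq hpq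
      have h3 := (hs.h1 p hp q hq).2 hpq
      refine hl1 (Sum.inr (Sum.inl p.1)) (Sum.inr (Sum.inr p.2)) (Sum.inr (Sum.inl q.1))
        (Sum.inr (Sum.inr q.2)) ?_
      simp only [Sum.elim_inr, Sum.elim_inl]
      have e : (u p.1 / u' p.1) * (v p.2 / v' p.2) / ((u q.1 / u' q.1) * (v q.2 / v' q.2)) =
          ((u p.1 * v p.2) / (u q.1 * v q.2)) / ((u' p.1 * v' p.2) / (u' q.1 * v' q.2)) := by
        have := nu p.1
        have := nv p.2
        have := nu q.1
        have := nv q.2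
        have := nu' p.1
        have := nv' p.2
        have := nu' q.1
        have := nv' q.2
        field_simp
      rw [e]
      exact K.div_mem h3 hpq) (by
      intro p hp q hq hpq
      have h3 := (hs.h2 p hp q hq).2 hpq
      refine hl1 (Sum.inr (Sum.inl p.1)) (Sum.inr (Sum.inr p.2)) (Sum.inl ()) (Sum.inl ()) ?_
      simp only [Sum.elim_inr, Sum.elim_inl]
      have e : (u p.1 / u' p.1) * (v p.2 / v' p.2) / (1 * 1) =
          ((u p.1 * v p.2) / (u0 q.1 * v0 q.2)) / ((u' p.1 * v' p.2) / (u0 q.1 * v0 q.2)) := by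
        have := nu p.1
        have := nv p.2
        have := nu' p.1
        have := nv' p.2
        have := h.ne _ (h0.ra.hu q.1)
        have := h.ne _ (h0.rb.hu q.2)
        field_simp
      rw [e]
      exact K.div_mem h3 hpq) (fun _ _ _ _ _ => rfl)
  have e1 := prod_poly J J' (fun j => c' j * u' j) (fun j => d' j * v' j)
    (fun j => l (Sum.inr (Sum.inl j))) (fun j => l (Sum.inr (Sum.inr j)))
  have e2 : ∑ p ∈ J0 ×ˢ J0', C ((c0 p.1 * u0 p.1) * (d0 p.2 * v0 p.2)) *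
      (X : F[X]) ^ (l (Sum.inl ()) + l (Sum.inl ())) =
      C N * X ^ (l (Sum.inl ()) + l (Sum.inl ())) := by
    rw [← Finset.sum_mul, ← map_sum]
    congr 2
    rw [← h0.hN, h0.ra.ha, h0.rb.ha, Finset.sum_mul_sum, ← Finset.sum_product']
  have hmono := h.mono J c' u' a' h1'.ra (fun j => l (Sum.inr (Sum.inl j)))
    (∑ j ∈ J', C (d' j * v' j) * X ^ (l (Sum.inr (Sum.inr j)))) N hN
    (l (Sum.inl ()) + l (Sum.inl ())) (by rw [e1, key, e2])
  intro i hi j hj
  exact hl2 (Sum.inr (Sum.inl i)) (Sum.inr (Sum.inl j)) (hmono i hi j hj)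

/-- associated products -/
theorem Fac.swap {κ : Type} {N : F} {J J' : Finset κ} {c u d v : κ → F} {a b : F}
    (h : Fac K G N J J' c u d v a b) : Fac K G N J' J d v c u b a :=
  ⟨h.rb, h.ra, by rw [mul_comm]; exact h.hN⟩

theorem Same.swap {κ : Type} {J J' J0 J0' : Finset κ}
    {u v u' v' u0 v0 : κ → F} (h : Same K J J' J0 J0' u v u' v' u0 v0) :
    Same K J' J J0' J0 v u v' u' v0 u0 := by
  constructor
  · intro p hp q hq
    rw [Finset.mem_product] at hp hq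
    have := h.h1 (p.2, p.1) (Finset.mem_product.2 ⟨hp.2, hp.1⟩) (q.2, q.1)
      (Finset.mem_product.2 ⟨hq.2, hq.1⟩)
    simp only at this
    rw [mul_comm (v p.1), mul_comm (v q.1), mul_comm (v' p.1), mul_comm (v' q.1)]
    exact this
  · intro p hp q hq
    rw [Finset.mem_product] at hp hq
    have := h.h2 (p.2, p.1) (Finset.mem_product.2 ⟨hp.2, hp.1⟩) (q.2, q.1)
      (Finset.mem_product.2 ⟨hq.2, hq.1⟩)
    simp only at this
    rw [mul_comm (v p.1), mul_comm (v0 q.1), mul_comm (v' p.1)]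
    exact this

/-- the product of the ratios of the supports lies in `K` -/
theorem Sys.rigid2 (h : Sys K G) {κ : Type} [Fintype κ] {N : F} (hN : N ≠ 0)
    {J J' J0 J0' : Finset κ} {c u d v c' u' d' v' c0 u0 d0 v0 : κ → F} {a b a' b' a0 b0 : F}
    (h1 : Fac K G N J J' c u d v a b) (h1' : Fac K G N J J' c' u' d' v' a' b')
    (h0 : Fac K G N J0 J0' c0 u0 d0 v0 a0 b0) (hs : Same K J J' J0 J0' u v u' v' u0 v0) :
    ∀ i ∈ J, ∀ j ∈ J', (u i / u' i) * (v j / v' j) ∈ K := by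
  obtain ⟨p, hp, q, hq, hpq⟩ := h.meet hN h1' h0
  have h3 := (hs.h2 p hp q hq).2 hpq
  have hA := h.rigid hN h1 h1' h0 hs
  have hB := h.rigid hN h1.swap h1'.swap h0.swap hs.swap
  rw [Finset.mem_product] at hp
  intro i hi j hj
  have e : (u i / u' i) * (v j / v' j) =
      ((u i / u' i) / (u p.1 / u' p.1)) * ((v j / v' j) / (v p.2 / v' p.2)) *
      (((u p.1 * v p.2) / (u0 q.1 * v0 q.2)) / ((u' p.1 * v' p.2) / (u0 q.1 * v0 q.2))) := by
    have := h.ne _ (h1.ra.hu p.1)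
    have := h.ne _ (h1.rb.hu p.2)
    have := h.ne _ (h1'.ra.hu p.1)
    have := h.ne _ (h1'.rb.hu p.2)
    have := h.ne _ (h0.ra.hu q.1)
    have := h.ne _ (h0.rb.hu q.2)
    have := h.ne _ (h1.ra.hu i)
    have := h.ne _ (h1.rb.hu j)
    have := h.ne _ (h1'.ra.hu i)
    have := h.ne _ (h1'.rb.hu j)
    field_simp
  rw [e]
  exact K.mul_mem (K.mul_mem (hA i hi p.1 hp.1) (hB j hj p.2 hp.2)) (K.div_mem h3 hpq)

end Pool.Agent.K3h74.SS
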