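import Mathlib
import Pool.Agent.K3h74.SS.Fin

/-!
# Finiteness of the sparse factorisations: conclusion
-/

set_option autoImplicit false

open Polynomial

namespace Pool.Agent.K3h74.SS

variable {F : Type} [Field F] {K : Subfield F} {G : Set F}

/-- **Finiteness.** A nonzero element has, up to factors from `G` and `K`, only finitely many
factorisations into two sparse factors. -/
theorem Sys.finiteness (h : Sys K G) {κ : Type} [Fintype κ] [DecidableEq κ] {N : F} (hN : N ≠ 0)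
    (a b : ℕ → F) (ha : ∀ i, ∃ c u : κ → F, (∀ j, c j ∈ K) ∧ (∀ j, u j ∈ G) ∧ a i = ∑ j, c j * u j)
    (hb : ∀ i, ∃ c u : κ → F, (∀ j, c j ∈ K) ∧ (∀ j, u j ∈ G) ∧ b i = ∑ j, c j * u j)
    (hab : ∀ i, a i * b i = N) :
    ∃ i i', i ≠ i' ∧ ∃ g ∈ G, ∃ f ∈ K, a i = g * f * a i' := by
  classical
  have hfac : ∀ i, ∃ (J J' : Finset κ) (c u d v : κ → F), Fac K G N J J' c u d v (a i) (b i) := by
    intro i
    obtain ⟨c, u, h1, h2, h3⟩ := ha i
    obtain ⟨d, v, h4, h5, h6⟩ := hb i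
    obtain ⟨J, c', hJ⟩ := h.red c u h1 h2 _ h3
    obtain ⟨J', d', hJ'⟩ := h.red d v h4 h5 _ h6
    exact ⟨J, J', c', u, d', v, hJ, hJ', hab i⟩
  choose J J' c u d v hF using hfac
  let f : ℕ → Finset κ × Finset κ × Set ((κ × κ) × (κ × κ)) × Set ((κ × κ) × (κ × κ)) := fun i =>
    (J i, J' i, {z | (u i z.1.1 * v i z.1.2) / (u i z.2.1 * v i z.2.2) ∈ K},
      {z | (u i z.1.1 * v i z.1.2) / (u 0 z.2.1 * v 0 z.2.2) ∈ K})
  obtain ⟨y, hy⟩ := Finite.exists_infinite_fiber f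
  have hI : (f ⁻¹' {y}).Infinite := Set.infinite_coe_iff.1 hy
  obtain ⟨i1, hi1⟩ := hI.nonempty
  have hfi : ∀ i ∈ f ⁻¹' {y}, f i = f i1 := fun i hi => hi.trans hi1.symm
  have hJi : ∀ i ∈ f ⁻¹' {y}, J i = J i1 := fun i hi => congrArg Prod.fst (hfi i hi)
  have hJi' : ∀ i ∈ f ⁻¹' {y}, J' i = J' i1 := fun i hi => congrArg (fun z => z.2.1) (hfi i hi)
  have hQ : ∀ i ∈ f ⁻¹' {y}, ∀ p q : κ × κ,
      (u i p.1 * v i p.2) / (u i q.1 * v i q.2) ∈ K ↔
      (u i1 p.1 * v i1 p.2) / (u i1 q.1 * v i1 q.2) ∈ K := by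
    intro i hi p q
    have h1 := congrArg (fun z => (p, q) ∈ z.2.2.1) (hfi i hi)
    exact iff_of_eq h1
  have hT : ∀ i ∈ f ⁻¹' {y}, ∀ p q : κ × κ,
      (u i p.1 * v i p.2) / (u 0 q.1 * v 0 q.2) ∈ K ↔
      (u i1 p.1 * v i1 p.2) / (u 0 q.1 * v 0 q.2) ∈ K := by
    intro i hi p q
    have h1 := congrArg (fun z => (p, q) ∈ z.2.2.2) (hfi i hi)
    exact iff_of_eq h1
  have hF1 : ∀ i ∈ f ⁻¹' {y}, Fac K G N (J i1) (J' i1) (c i) (u i) (d i) (v i) (a i) (b i) := by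
    intro i hi
    have := hF i
    rw [hJi i hi, hJi' i hi] at this
    exact this
  have hS : ∀ i ∈ f ⁻¹' {y}, Same K (J i1) (J' i1) (J 0) (J' 0) (u i) (v i) (u i1) (v i1)
      (u 0) (v 0) := fun i hi =>
    ⟨fun p _ q _ => hQ i hi p q, fun p _ q _ => hT i hi p q⟩
  have hA : ∀ i ∈ f ⁻¹' {y}, ∀ j ∈ J i1, ∀ j' ∈ J i1, (u i j / u i1 j) / (u i j' / u i1 j') ∈ K :=
    fun i hi => h.rigid hN (hF1 i hi) (hF1 i1 hi1) (hF 0) (hS i hi)
  have hB : ∀ i ∈ f ⁻¹' {y}, ∀ j ∈ J i1, ∀ j' ∈ J' i1, (u i j / u i1 j) * (v i j' / v i1 j') ∈ K :=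
    fun i hi => h.rigid2 hN (hF1 i hi) (hF1 i1 hi1) (hF 0) (hS i hi)
  have nu : ∀ i j, u i j ≠ 0 := fun i j => h.ne _ ((hF i).ra.hu j)
  have nv : ∀ i j, v i j ≠ 0 := fun i j => h.ne _ ((hF i).rb.hu j)
  have hane : ∀ i, a i ≠ 0 := fun i h0 => hN (by rw [← hab i, h0, zero_mul])
  have hJne : (J i1).Nonempty := by
    rw [Finset.nonempty_iff_ne_empty]
    intro h0
    apply hane i1
    rw [(hF i1).ra.ha, h0, Finset.sum_empty]
  obtain ⟨j0, hj0⟩ := hJne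
  set x : ℕ → F := fun i => u i j0 / u i1 j0 with hx
  have nx : ∀ i, x i ≠ 0 := fun i => div_ne_zero (nu i j0) (nu i1 j0)
  have hxG : ∀ i, x i ∈ G := fun i => h.div _ ((hF i).ra.hu j0) _ ((hF i1).ra.hu j0)
  set γ : ℕ → κ → F := fun i j => c i j * (u i j / (x i * u i1 j)) with hγ
  set δ : ℕ → κ → F := fun i j => d i j * ((x i * v i j) / v i1 j) with hδ
  have hγK : ∀ i ∈ f ⁻¹' {y}, ∀ j ∈ J i1, γ i j ∈ K ∧ γ i j ≠ 0 := by
    intro i hi j hj
    have h1 := (hF1 i hi).ra.hc j hj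
    refine ⟨K.mul_mem h1.1 ?_, mul_ne_zero h1.2 (div_ne_zero (nu i j) (mul_ne_zero (nx i) (nu i1 j)))⟩
    have h2 := hA i hi j hj j0 hj0
    have e : u i j / (x i * u i1 j) = (u i j / u i1 j) / (u i j0 / u i1 j0) := by
      rw [hx]
      have := nu i j0
      have := nu i1 j0
      have := nu i1 j
      field_simp
    rw [e]
    exact h2
  have hδK : ∀ i ∈ f ⁻¹' {y}, ∀ j ∈ J' i1, δ i j ∈ K := by
    intro i hi j hj
    have h1 := (hF1 i hi).rb.hc j hj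
    refine K.mul_mem h1.1 ?_
    have h2 := hB i hi j0 hj0 j hj
    have e : (x i * v i j) / v i1 j = (u i j0 / u i1 j0) * (v i j / v i1 j) := by
      rw [hx]
      have := nu i1 j0
      have := nv i1 j
      field_simp
    rw [e]
    exact h2
  have haγ : ∀ i ∈ f ⁻¹' {y}, a i = x i * ∑ j ∈ J i1, γ i j * u i1 j := by
    intro i hi
    rw [(hF1 i hi).ra.ha, Finset.mul_sum]
    refine Finset.sum_congr rfl fun j _ => ?_
    rw [hγ]
    have := nx i
    have := nu i1 j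
    field_simp
  have hbδ : ∀ i ∈ f ⁻¹' {y}, x i * b i = ∑ j ∈ J' i1, δ i j * v i1 j := by
    intro i hi
    rw [(hF1 i hi).rb.ha, Finset.mul_sum]
    refine Finset.sum_congr rfl fun j _ => ?_
    rw [hδ]
    have := nv i1 j
    field_simp
  have hprod : ∀ i ∈ f ⁻¹' {y}, (∑ j ∈ J i1, γ i j * u i1 j) * ∑ j ∈ J' i1, δ i j * v i1 j = N := by
    intro i hi
    rw [← hbδ i hi, ← hab i]
    conv_rhs => rw [haγ i hi]
    ring
  obtain ⟨l, hl1, hl2⟩ := h.wt (κ ⊕ κ) (Sum.elim (u i1) (v i1)) (by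
    rintro (t | t)
    · exact nu i1 t
    · exact nv i1 t)
  set P : ℕ → F[X] := fun i => ∑ j ∈ J i1, C (γ i j * u i1 j) * X ^ (l (Sum.inl j)) with hP
  set R : ℕ → F[X] := fun i => ∑ j ∈ J' i1, C (δ i j * v i1 j) * X ^ (l (Sum.inr j)) with hR
  have hPR : ∀ i ∈ f ⁻¹' {y}, P i * R i = P i1 * R i1 := by
    intro i hi
    rw [hP, hR]
    simp only
    rw [prod_poly, prod_poly]
    refine h.two (J i1) (J' i1) (J i1) (J' i1) (γ i) (u i1) (δ i) (v i1) (γ i1) (u i1) (δ i1)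
      (v i1) N (hF i1).ra.hu (hF i1).rb.hu (hF i1).ra.hu (hF i1).rb.hu
      (fun j hj => (hγK i hi j hj).1) (fun j hj => hδK i hi j hj)
      (fun j hj => (hγK i1 hi1 j hj).1) (fun j hj => hδK i1 hi1 j hj) (hprod i hi) (hprod i1 hi1)
      _ _ ?_ ?_ ?_ <;>
    · intro p _ q _ hpq
      exact hl1 (Sum.inl p.1) (Sum.inr p.2) (Sum.inl q.1) (Sum.inr q.2) hpq
  have hev : ∀ i, (P i).eval 1 = ∑ j ∈ J i1, γ i j * u i1 j := by
    intro i
    rw [hP]
    simp [Polynomial.eval_finsetSum]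
  have hevR : ∀ i, (R i).eval 1 = ∑ j ∈ J' i1, δ i j * v i1 j := by
    intro i
    rw [hR]
    simp [Polynomial.eval_finsetSum]
  have hM0 : P i1 * R i1 ≠ 0 := by
    intro h0
    have h1 := congrArg (Polynomial.eval 1) h0
    rw [Polynomial.eval_mul, hev, hevR, hprod i1 hi1, Polynomial.eval_zero] at h1
    exact hN h1
  have hP0 : ∀ i ∈ f ⁻¹' {y}, P i ≠ 0 := by
    intro i hi h0
    apply hM0
    rw [← hPR i hi, h0, zero_mul]
  have hmaps : Set.MapsTo (fun i => UniqueFactorizationMonoid.normalizedFactors (P i)) (f ⁻¹' {y})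
      (Set.Iic (UniqueFactorizationMonoid.normalizedFactors (P i1 * R i1))) := by
    intro i hi
    exact (UniqueFactorizationMonoid.dvd_iff_normalizedFactors_le_normalizedFactors
      (hP0 i hi) hM0).1 ⟨R i, (hPR i hi).symm⟩
  obtain ⟨i, hi, i', hi', hne, heq⟩ := hI.exists_ne_map_eq_of_mapsTo hmaps (Set.finite_Iic _)
  refine ⟨i, i', hne, ?_⟩
  have hassoc : Associated (P i') (P i) :=
    (UniqueFactorizationMonoid.associated_iff_normalizedFactors_eq_normalizedFactors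
      (hP0 i' hi') (hP0 i hi)).2 heq.symm
  obtain ⟨g, hg⟩ := hassoc
  obtain ⟨t, ht, ht'⟩ := Polynomial.isUnit_iff.1 g.isUnit
  rw [← ht'] at hg
  have hcoef : ∀ i, (P i).coeff (l (Sum.inl j0)) = γ i j0 * u i1 j0 := by
    intro i
    rw [hP]
    simp only [Polynomial.finsetSum_coeff, Polynomial.coeff_C_mul, Polynomial.coeff_X_pow]
    rw [Finset.sum_eq_single j0]
    · simp
    · intro j hj hjj
      rw [if_neg, mul_zero]
      intro hll
      have h2 := hl2 (Sum.inl j0) (Sum.inl j) hll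
      exact (hF i1).ra.hne j0 hj0 j hj (fun h => hjj h.symm) h2
    · intro h
      exact absurd hj0 h
  have hγt : γ i j0 = t * γ i' j0 := by
    have h1 := congrArg (fun p : F[X] => p.coeff (l (Sum.inl j0))) hg
    simp only [Polynomial.coeff_mul_C] at h1
    rw [hcoef, hcoef] at h1
    have h2 := nu i1 j0
    have h3 : (t * γ i' j0 - γ i j0) * u i1 j0 = 0 := by linear_combination h1
    rcases mul_eq_zero.1 h3 with h4 | h4
    · exact (sub_eq_zero.1 h4).symm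
    · exact absurd h4 h2
  have htK : t ∈ K := by
    have h1 := hγK i hi j0 hj0
    have h2 := hγK i' hi' j0 hj0
    have h3 : t = γ i j0 / γ i' j0 := by
      rw [hγt, mul_div_cancel_right₀ _ h2.2]
    rw [h3]
    exact K.div_mem h1.1 h2.1
  refine ⟨x i / x i', h.div _ (hxG i) _ (hxG i'), t, htK, ?_⟩
  rw [haγ i hi, haγ i' hi', ← hev, ← hev, ← hg, Polynomial.eval_mul, Polynomial.eval_C]
  have := nx i'
  field_simp

end Pool.Agent.K3h74.SS
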