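import Mathlib
import Pool.Agent.TH551.SU.CS
import Pool.Agent.TH551.SU.Sui
import Pool.Agent.TH551.SU.WT
import Pool.Agent.TH539.MQRatio
import Pool.Agent.K3h74.SS.Fin2

/-!
# Germs of S-units form a system in the sense of `Sys`
-/

set_option autoImplicit false

open Filter Topology Polynomial

namespace Pool.Agent.K3h74.SS

open Pool.Agent.TH932.Germs Pool.Agent.TH551.SU Pool.Agent.TH551.SU.SUI
  Pool.Agent.TH551.SU.CS Pool.Agent.TH539.MQ

theorem isSU_mul {s : ℕ} (b : Fin s → ℕ) (hb : ∀ v, (b v).Prime) {x y : ℚ} (hx : IsSU b x)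
    (hy : IsSU b y) : IsSU b (x * y) := by
  obtain ⟨σ, e, hσ, rfl⟩ := hx
  obtain ⟨τ, f, hτ, rfl⟩ := hy
  refine ⟨σ * τ, fun v => e v + f v, ?_, ?_⟩
  · rcases hσ with rfl | rfl <;> rcases hτ with rfl | rfl <;> simp
  · have h1 : ∏ v, (b v : ℚ) ^ (e v + f v) = (∏ v, (b v : ℚ) ^ (e v)) * ∏ v, (b v : ℚ) ^ (f v) := by
      rw [← Finset.prod_mul_distrib]
      refine Finset.prod_congr rfl fun v _ => ?_
      exact zpow_add₀ (by exact_mod_cast (hb v).ne_zero) _ _
    rw [h1]
    push_cast
    ring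

theorem isSU_inv {s : ℕ} (b : Fin s → ℕ) {x : ℚ} (hx : IsSU b x) :
    IsSU b x⁻¹ := by
  obtain ⟨σ, e, hσ, rfl⟩ := hx
  refine ⟨σ, fun v => - e v, hσ, ?_⟩
  have h1 : ∏ v, (b v : ℚ) ^ (- e v) = (∏ v, (b v : ℚ) ^ (e v))⁻¹ := by
    rw [← Finset.prod_inv_distrib]
    refine Finset.prod_congr rfl fun v _ => ?_
    exact zpow_neg _ _
  rw [h1, mul_inv]
  congr 1
  rcases hσ with rfl | rfl <;> norm_num

theorem isSU_div {s : ℕ} (b : Fin s → ℕ) (hb : ∀ v, (b v).Prime) {x y : ℚ} (hx : IsSU b x)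
    (hy : IsSU b y) : IsSU b (x / y) := by
  rw [div_eq_mul_inv]
  exact isSU_mul b hb hx (isSU_inv b hy)

theorem sys {s : ℕ} (b : Fin s → ℕ) (hb : ∀ v, (b v).Prime) (hbi : Function.Injective b)
    (L : ℕ → ℝ) (hL : Tendsto L atTop atTop) : Sys (KK L hL) {g : GG | GSU b g} := by
  classical
  have hne : ∀ g : GG, GSU b g → g ≠ 0 := by
    rintro g ⟨a, rfl, ha⟩
    rw [gm_ne_zero]
    exact Eventually.of_forall fun n => isSU_ne b hb (ha n)
  refine ⟨fun g hg => hne g hg, ?_, ?_, ?_, ?_⟩
  · rintro g ⟨a, rfl, ha⟩ g' ⟨a', rfl, ha'⟩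
    exact ⟨fun n => a n * a' n, gm_mul _ _, fun n => isSU_mul b hb (ha n) (ha' n)⟩
  · rintro g ⟨a, rfl, ha⟩ g' ⟨a', rfl, ha'⟩
    exact ⟨fun n => a n / a' n, gm_div _ _, fun n => isSU_div b hb (ha n) (ha' n)⟩
  · intro ι A a g w ha hg hw hsum
    -- coefficients as elements of the subfield
    let a' : ι → KK L hL := fun i => if h : a i ∈ KK L hL then ⟨a i, h⟩ else 0
    have ha' : ∀ i ∈ A, ((a' i : KK L hL) : GG) = a i := by
      intro i hi
      simp only [a', dif_pos (ha i hi)]
    have h1 := cs sui s b hb hbi L hL ι A a' g w hg hw (by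
      rw [← hsum]
      exact Finset.sum_congr rfl fun i hi => by rw [ha' i hi])
    rw [← h1]
    exact Finset.sum_congr rfl fun i hi => by rw [ha' i hi]
  · intro τ _ u hu
    let e := Fintype.equivFin τ
    obtain ⟨l, hl1, hl2⟩ := WT.wt L hL (Fintype.card τ) (fun j => u (e.symm j))
      (fun j => hu _)
    refine ⟨fun t => l (e t), ?_, ?_⟩
    · intro p q p' q' hmem
      have hsum : ∀ x y : τ, ∑ j, (Pi.single (e x) 1 + Pi.single (e y) 1 : Fin _ → ℕ) j = 2 := by
        intro x y
        simp only [Pi.add_apply, Finset.sum_add_distrib, Finset.sum_pi_single', Finset.mem_univ,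
          if_true]
      have hprod : ∀ x y : τ, ∏ j, u (e.symm j) ^
          ((Pi.single (e x) 1 + Pi.single (e y) 1 : Fin _ → ℕ) j) = u x * u y := by
        intro x y
        simp only [Pi.add_apply, pow_add, Finset.prod_mul_distrib]
        have hone : ∀ z : τ, ∏ j, u (e.symm j) ^ ((Pi.single (e z) 1 : Fin _ → ℕ) j) = u z := by
          intro z
          rw [Finset.prod_eq_single (e z)]
          · simp
          · intro j _ hj
            rw [Pi.single_eq_of_ne hj, pow_zero]
          · intro h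
            exact absurd (Finset.mem_univ _) h
        rw [hone, hone]
      have hwt : ∀ x y : τ, ∑ j, (Pi.single (e x) 1 + Pi.single (e y) 1 : Fin _ → ℕ) j * l j =
          l (e x) + l (e y) := by
        intro x y
        simp only [Pi.add_apply, add_mul, Finset.sum_add_distrib]
        have hone : ∀ z : τ, ∑ j, (Pi.single (e z) 1 : Fin _ → ℕ) j * l j = l (e z) := by
          intro z
          rw [Finset.sum_eq_single (e z)]
          · simp
          · intro j _ hj
            rw [Pi.single_eq_of_ne hj, zero_mul]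
          · intro h
            exact absurd (Finset.mem_univ _) h
        rw [hone, hone]
      have h1 := hl1 (Pi.single (e p) 1 + Pi.single (e q) 1) (Pi.single (e p') 1 +
        Pi.single (e q') 1) (by rw [hsum, hsum]) (by rw [hprod, hprod]; exact hmem)
      rw [hwt, hwt] at h1
      exact h1
    · intro x y hxy
      have := hl2 (e x) (e y) hxy
      simpa using this

end Pool.Agent.K3h74.SS
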