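import Mathlib
import Pool.Agent.K3h74.SS.Germ

/-!
# The number of sparse factorisations
-/

set_option autoImplicit false

open Filter Topology

namespace Pool.Agent.K3h74.SS

open Pool.Agent.TH932.Germs Pool.Agent.TH551.SU Pool.Agent.TH551.SU.SUI
  Pool.Agent.TH551.SU.CS Pool.Agent.TH539.MQ

/-- a sum of `k` terms `c u`, `c` of height at most `h`, `u` a unit -/
def Sh {s : ℕ} (b : Fin s → ℕ) (k h : ℕ) (x : ℚ) : Prop :=
  ∃ c u : Fin k → ℚ, (∀ j, c j ∈ box h) ∧ (∀ j, IsSU b (u j)) ∧ x = ∑ j, c j * u j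

/-- a large subset without related pairs -/
theorem exists_sep {s : ℕ} (b : Fin s → ℕ) (hb : ∀ v, (b v).Prime) (D : ℕ) (X : Finset ℚ)
    (hX0 : ∀ x ∈ X, x ≠ 0)
    (hX : ∀ x ∈ X, ∀ y ∈ X, x ≠ y → ¬ IsSU b (x / y)) :
    ∃ Y ⊆ X, X.card ≤ Y.card * (2 * (box D).card + 1) ∧
      ∀ x ∈ Y, ∀ y ∈ Y, x ≠ y → ∀ u f : ℚ, IsSU b u → f ∈ box D → x ≠ u * f * y := by
  classical
  let good : Finset ℚ → Prop := fun Y => ∀ x ∈ Y, ∀ y ∈ Y, x ≠ y →
    ∀ u f : ℚ, IsSU b u → f ∈ box D → x ≠ u * f * y
  obtain ⟨Y, hY, hmax⟩ := Finset.exists_max_image (X.powerset.filter good) Finset.card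
    ⟨∅, Finset.mem_filter.2 ⟨Finset.empty_mem_powerset _, fun x hx => absurd hx (Finset.notMem_empty _)⟩⟩
  rw [Finset.mem_filter, Finset.mem_powerset] at hY
  refine ⟨Y, hY.1, ?_, hY.2⟩
  -- the neighbours of `y`
  let nb : ℚ → Finset ℚ := fun y =>
    (X.filter fun x => ∃ u f : ℚ, IsSU b u ∧ f ∈ box D ∧ x = u * f * y) ∪
    ((X.filter fun x => ∃ u f : ℚ, IsSU b u ∧ f ∈ box D ∧ y = u * f * x) ∪ {y})
  have hcov : X ⊆ Y.biUnion nb := by
    intro x hx
    rw [Finset.mem_biUnion]
    by_contra hcon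
    push Not at hcon
    have hxY : x ∉ Y := by
      intro h
      apply hcon x h
      simp [nb]
    have hgood : good (insert x Y) := by
      intro z hz w hw hzw u f hu hf heq
      rw [Finset.mem_insert] at hz hw
      rcases hz with rfl | hz <;> rcases hw with rfl | hw
      · exact hzw rfl
      · apply hcon w hw
        simp only [nb, Finset.mem_union, Finset.mem_filter]
        exact Or.inl ⟨hx, u, f, hu, hf, heq⟩
      · apply hcon z hz
        simp only [nb, Finset.mem_union, Finset.mem_filter]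
        exact Or.inr (Or.inl ⟨hx, u, f, hu, hf, heq⟩)
      · exact hY.2 z hz w hw hzw u f hu hf heq
    have h1 := hmax (insert x Y) (Finset.mem_filter.2 ⟨Finset.mem_powerset.2
      (Finset.insert_subset hx hY.1), hgood⟩)
    rw [Finset.card_insert_of_notMem hxY] at h1
    omega
  have hnb : ∀ y ∈ Y, (nb y).card ≤ 2 * (box D).card + 1 := by
    intro y hy
    have hy0 : y ≠ 0 := hX0 y (hY.1 hy)
    have h1 : (X.filter fun x => ∃ u f : ℚ, IsSU b u ∧ f ∈ box D ∧ x = u * f * y).card ≤
        (box D).card := by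
      have hch : ∀ x ∈ X.filter (fun x => ∃ u f : ℚ, IsSU b u ∧ f ∈ box D ∧ x = u * f * y),
          ∃ f : ℚ, f ∈ box D ∧ ∃ u, IsSU b u ∧ x = u * f * y := by
        intro x hx
        obtain ⟨-, u, f, hu, hf, h⟩ := Finset.mem_filter.1 hx
        exact ⟨f, hf, u, hu, h⟩
      choose! φ hφ using hch
      refine Finset.card_le_card_of_injOn φ (fun x hx => (hφ x hx).1) ?_
      intro x hx x' hx' hff
      by_contra hne
      obtain ⟨-, u, hu, h2⟩ := hφ x hx
      obtain ⟨-, u', hu', h2'⟩ := hφ x' hx'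
      have hxX := (Finset.mem_filter.1 hx).1
      have hxX' := (Finset.mem_filter.1 hx').1
      apply hX x hxX x' hxX' hne
      have hx0' := hX0 x' hxX'
      have hu0' := isSU_ne b hb hu'
      have e : x / x' = u / u' := by
        have hf0 : φ x' ≠ 0 := by
          intro h0
          rw [h0] at h2'
          apply hx0'
          rw [h2']
          ring
        rw [h2, h2', hff]
        field_simp
      rw [e]
      exact isSU_div b hb hu hu'
    have h2 : (X.filter fun x => ∃ u f : ℚ, IsSU b u ∧ f ∈ box D ∧ y = u * f * x).card ≤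
        (box D).card := by
      have hch : ∀ x ∈ X.filter (fun x => ∃ u f : ℚ, IsSU b u ∧ f ∈ box D ∧ y = u * f * x),
          ∃ f : ℚ, f ∈ box D ∧ ∃ u, IsSU b u ∧ y = u * f * x := by
        intro x hx
        obtain ⟨-, u, f, hu, hf, h⟩ := Finset.mem_filter.1 hx
        exact ⟨f, hf, u, hu, h⟩
      choose! φ hφ using hch
      refine Finset.card_le_card_of_injOn φ (fun x hx => (hφ x hx).1) ?_
      intro x hx x' hx' hff
      by_contra hne
      obtain ⟨-, u, hu, h2⟩ := hφ x hx
      obtain ⟨-, u', hu', h2'⟩ := hφ x' hx'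
      have hxX := (Finset.mem_filter.1 hx).1
      have hxX' := (Finset.mem_filter.1 hx').1
      apply hX x hxX x' hxX' hne
      have hx0' := hX0 x' hxX'
      have hx0 := hX0 x hxX
      have hu0' := isSU_ne b hb hu'
      have hu0 := isSU_ne b hb hu
      have hf0 : φ x' ≠ 0 := by
        intro h0
        rw [h0] at h2'
        apply hy0
        rw [h2']
        ring
      have e : x / x' = u' / u := by
        rw [hff] at h2
        have h3 : u * φ x' * x = u' * φ x' * x' := h2.symm.trans h2'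
        rw [div_eq_div_iff hx0' hu0]
        have h4 : φ x' * (x * u - u' * x') = 0 := by linear_combination h3
        rcases mul_eq_zero.1 h4 with h5 | h5
        · exact absurd h5 hf0
        · linarith
      rw [e]
      exact isSU_div b hb hu' hu
    calc (nb y).card ≤ (X.filter fun x => ∃ u f : ℚ, IsSU b u ∧ f ∈ box D ∧ x = u * f * y).card +
          ((X.filter fun x => ∃ u f : ℚ, IsSU b u ∧ f ∈ box D ∧ y = u * f * x) ∪ {y}).card :=
          Finset.card_union_le _ _
      _ ≤ (box D).card + ((box D).card + 1) := by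
          refine Nat.add_le_add h1 ((Finset.card_union_le _ _).trans ?_)
          rw [Finset.card_singleton]
          exact Nat.add_le_add_right h2 1
      _ = 2 * (box D).card + 1 := by ring
  calc X.card ≤ (Y.biUnion nb).card := Finset.card_le_card hcov
    _ ≤ Y.card * (2 * (box D).card + 1) := Finset.card_biUnion_le_card_mul _ _ _ hnb

/-- **Few sparse factorisations.** Up to `S`-units a nonzero rational number has at most
`C h ^ C` factors which are, together with the complementary factor, short. -/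
theorem count {s : ℕ} (b : Fin s → ℕ) (hb : ∀ v, (b v).Prime) (hbi : Function.Injective b)
    (k : ℕ) :
    ∃ C : ℕ, ∀ h : ℕ, 1 ≤ h → ∀ N : ℚ, N ≠ 0 → ∀ X : Finset ℚ,
      (∀ x ∈ X, x ≠ 0 ∧ Sh b k h x ∧ Sh b k h (N / x)) →
      (∀ x ∈ X, ∀ y ∈ X, x ≠ y → ¬ IsSU b (x / y)) → X.card ≤ C * h ^ C := by
  classical
  by_contra hcon
  push Not at hcon
  choose h hh N hN X hX hXe hcard using fun n : ℕ => hcon (n + 1)
  let L : ℕ → ℝ := fun n => Real.log (((n + 1 : ℕ) : ℝ) * (h n : ℝ) ^ (n + 1))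
  have hh1 : ∀ n, (1 : ℝ) ≤ h n := fun n => by exact_mod_cast hh n
  have hLe : ∀ n, L n = Real.log ((n + 1 : ℕ) : ℝ) + (n + 1 : ℕ) * Real.log (h n) := by
    intro n
    simp only [L]
    rw [Real.log_mul (by positivity) (by have := hh1 n; positivity), Real.log_pow]
  have hlh : ∀ n, 0 ≤ Real.log (h n) := fun n => Real.log_nonneg (hh1 n)
  have hL : Tendsto L atTop atTop := by
    have h1 : Tendsto (fun n : ℕ => Real.log ((n + 1 : ℕ) : ℝ)) atTop atTop :=
      (Real.tendsto_log_atTop.comp tendsto_natCast_atTop_atTop).comp (tendsto_add_atTop_nat 1)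
    refine tendsto_atTop_mono (fun n => ?_) h1
    rw [hLe]
    have := hlh n
    have h2 : (0 : ℝ) ≤ ((n + 1 : ℕ) : ℝ) * Real.log (h n) := by positivity
    linarith
  have hexp : ∀ n, Real.exp (L n) = ((n + 1 : ℕ) : ℝ) * (h n : ℝ) ^ (n + 1) := by
    intro n
    simp only [L]
    exact Real.exp_log (by have := hh1 n; positivity)
  have hL0 : ∀ n, 0 ≤ L n := by
    intro n
    rw [hLe]
    have h4 : (0 : ℝ) ≤ Real.log ((n + 1 : ℕ) : ℝ) :=
      Real.log_nonneg (by push_cast; linarith [(Nat.cast_nonneg n : (0 : ℝ) ≤ n)])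
    have := hlh n
    positivity
  let D : ℕ → ℕ := fun n => ⌊Real.exp (L n / 8)⌋₊
  have hsep := fun n => exists_sep b hb (D n) (X n) (fun x hx => (hX n x hx).1) (hXe n)
  choose Y hYX hYcard hY using hsep
  -- the cardinality of `Y n` tends to infinity
  have hYbig : ∀ n, Real.exp (L n * (3 / 4)) ≤ 7 * (Y n).card := by
    intro n
    have h1 : (((X n).card : ℕ) : ℝ) ≤ ((Y n).card : ℝ) * (2 * ((box (D n)).card : ℝ) + 1) := by
      exact_mod_cast hYcard n
    have h2 : Real.exp (L n) ≤ ((X n).card : ℝ) := by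
      rw [hexp]
      exact_mod_cast (hcard n).le
    have hD : ((D n : ℕ) : ℝ) ≤ Real.exp (L n / 8) := Nat.floor_le (Real.exp_pos _).le
    have h1e : (1 : ℝ) ≤ Real.exp (L n / 8) := Real.one_le_exp (by have := hL0 n; positivity)
    have h3 : ((box (D n)).card : ℝ) ≤ 3 * Real.exp (L n / 4) := by
      have h4 : ((box (D n)).card : ℝ) ≤ (2 * (D n : ℝ) + 1) * D n := by
        exact_mod_cast box_card (D n)
      have h5 : Real.exp (L n / 4) = Real.exp (L n / 8) * Real.exp (L n / 8) := by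
        rw [← Real.exp_add]; ring_nf
      rw [h5]
      have hD0 : (0 : ℝ) ≤ (D n : ℝ) := Nat.cast_nonneg _
      nlinarith
    have h1e4 : (1 : ℝ) ≤ Real.exp (L n / 4) := Real.one_le_exp (by have := hL0 n; positivity)
    have h6 : Real.exp (L n) ≤ ((Y n).card : ℝ) * (7 * Real.exp (L n / 4)) := by
      refine h2.trans (h1.trans ?_)
      exact mul_le_mul_of_nonneg_left (by linarith) (Nat.cast_nonneg _)
    have h7 : Real.exp (L n) = Real.exp (L n * (3 / 4)) * Real.exp (L n / 4) := by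
      rw [← Real.exp_add]; ring_nf
    rw [h7] at h6
    have h8 : Real.exp (L n * (3 / 4)) * Real.exp (L n / 4) ≤
        (7 * ((Y n).card : ℝ)) * Real.exp (L n / 4) := by linarith
    exact le_of_mul_le_mul_right h8 (Real.exp_pos _)
  have hYinf : ∀ i : ℕ, ∀ᶠ n in (UU : Filter ℕ), i < (Y n).card := by
    intro i
    apply ev_of_atTop
    have h1 : Tendsto (fun n => L n * (3 / 4)) atTop atTop :=
      hL.atTop_mul_const (by norm_num)
    filter_upwards [h1.eventually_ge_atTop (7 * (i : ℝ))] with n hn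
    have h2 := hYbig n
    have h3 := Real.add_one_le_exp (L n * (3 / 4))
    have h4 : (i : ℝ) < (Y n).card := by linarith
    exact_mod_cast h4
  -- the germs
  let a : ℕ → ℕ → ℚ := fun i n => if hi : i < (Y n).card then
    ((Y n).equivFin.symm ⟨i, hi⟩ : ℚ) else 1
  have ha_mem : ∀ i n, i < (Y n).card → a i n ∈ Y n := by
    intro i n hi
    simp only [a, dif_pos hi]
    exact ((Y n).equivFin.symm ⟨i, hi⟩).2
  have ha_inj : ∀ i i' n, i ≠ i' → i < (Y n).card → i' < (Y n).card → a i n ≠ a i' n := by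
    intro i i' n hne hi hi' heq
    simp only [a, dif_pos hi, dif_pos hi'] at heq
    have h1 := (Y n).equivFin.symm.injective (Subtype.ext heq)
    exact hne (Fin.mk.inj_iff.1 h1)
  -- negligible sequences
  have hbig : ∀ ε : ℝ, 0 < ε → ∀ᶠ n : ℕ in (UU : Filter ℕ), (h n : ℝ) ≤ Real.exp (ε * L n) := by
    intro ε hε
    apply ev_of_atTop
    obtain ⟨N, hN⟩ := exists_nat_gt (1 / ε)
    filter_upwards [eventually_ge_atTop N] with n hn
    have h1 : (1 : ℝ) ≤ ε * ((n + 1 : ℕ) : ℝ) := by
      have h2 : (1 / ε) < ((n + 1 : ℕ) : ℝ) := by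
        refine hN.trans_le ?_
        exact_mod_cast (by omega : N ≤ n + 1)
      rw [div_lt_iff₀ hε] at h2
      linarith
    rw [← Real.log_le_iff_le_exp (by linarith [hh1 n]), hLe]
    have h3 := hlh n
    have h4 : (0 : ℝ) ≤ Real.log ((n + 1 : ℕ) : ℝ) :=
      Real.log_nonneg (by push_cast; linarith [(Nat.cast_nonneg n : (0 : ℝ) ≤ n)])
    have h5 : Real.log (h n) ≤ (ε * ((n + 1 : ℕ) : ℝ)) * Real.log (h n) := by
      nlinarith
    have h6 : 0 ≤ ε * Real.log ((n + 1 : ℕ) : ℝ) := by positivity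
    linarith [mul_assoc ε ((n + 1 : ℕ) : ℝ) (Real.log (h n))]
  have hKK : ∀ c : ℕ → ℚ, (∀ n, c n ∈ box (h n)) → gm c ∈ KK L hL := by
    intro c hc
    rw [mem_KK_iff hL]
    constructor
    · intro ε hε
      filter_upwards [hbig ε hε] with n hn
      exact (box_num (hc n)).1.trans hn
    · intro ε hε
      filter_upwards [hbig ε hε] with n hn
      have h1 := (box_num (hc n)).2.trans hn
      push_cast
      rw [abs_of_nonneg (Nat.cast_nonneg _)]
      exact h1
  -- short representations of germs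
  have hrep : ∀ y : ℕ → ℚ, (∀ᶠ n in (UU : Filter ℕ), Sh b k (h n) (y n)) →
      ∃ c u : Fin k → GG, (∀ j, c j ∈ KK L hL) ∧ (∀ j, u j ∈ {g : GG | GSU b g}) ∧
        gm y = ∑ j, c j * u j := by
    intro y hy
    have hch : ∀ n, ∃ c u : Fin k → ℚ, (∀ j, c j ∈ box (h n)) ∧ (∀ j, IsSU b (u j)) ∧
        (Sh b k (h n) (y n) → y n = ∑ j, c j * u j) := by
      intro n
      by_cases hs : Sh b k (h n) (y n)
      · obtain ⟨c, u, h1, h2, h3⟩ := hs
        exact ⟨c, u, h1, h2, fun _ => h3⟩
      · exact ⟨fun _ => 0, fun _ => 1, fun _ => zero_mem_box (hh n), fun _ => isSU_one b,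
          fun h => absurd h hs⟩
    choose c u h1 h2 h3 using hch
    refine ⟨fun j => gm (fun n => c n j), fun j => gm (fun n => u n j), fun j => hKK _ fun n => h1 n j,
      fun j => ⟨_, rfl, fun n => h2 n j⟩, ?_⟩
    simp only [gm_mul]
    rw [sum_gm, gm_eq]
    filter_upwards [hy] with n hn
    exact h3 n hn
  have hS := sys b hb hbi L hL
  obtain ⟨i, i', hne, g, hg, f, hf, heq⟩ := hS.finiteness (κ := Fin k) (N := gm N)
    (gm_ne_zero.2 (Eventually.of_forall hN)) (fun i => gm (a i)) (fun i => gm (fun n => N n / a i n))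
    (fun i => hrep _ (by
      filter_upwards [hYinf i] with n hn
      exact (hX n _ (hYX n (ha_mem i n hn))).2.1))
    (fun i => hrep _ (by
      filter_upwards [hYinf i] with n hn
      exact (hX n _ (hYX n (ha_mem i n hn))).2.2))
    (fun i => by
      rw [gm_mul, gm_eq]
      filter_upwards [hYinf i] with n hn
      have := (hX n _ (hYX n (ha_mem i n hn))).1
      field_simp)
  obtain ⟨u, rfl, hu⟩ := hg
  obtain ⟨f', rfl⟩ := gm_surj f
  rw [mem_KK_iff hL] at hf
  simp only [gm_mul] at heq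
  rw [gm_eq] at heq
  have h1 := hf.1 (1 / 8) (by norm_num)
  have h2 := hf.2 (1 / 8) (by norm_num)
  obtain ⟨n, h1, h2, h3, h4, h5⟩ :=
    (h1.and (h2.and (heq.and ((hYinf i).and (hYinf i'))))).exists
  refine hY n (a i n) (ha_mem i n h4) (a i' n) (ha_mem i' n h5) (ha_inj i i' n hne h4 h5)
    (u n) (f' n) (hu n) ?_ h3
  have hfl : ∀ z : ℕ, (z : ℝ) ≤ Real.exp (1 / 8 * L n) → (z : ℝ) ≤ D n := by
    intro z hz
    have h6 : z ≤ D n := Nat.le_floor (by
      have e : L n / 8 = 1 / 8 * L n := by ring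
      rw [e]
      exact hz)
    exact_mod_cast h6
  refine mem_box ?_ ?_
  · have h6 := hfl (f' n).num.natAbs (by rw [Nat.cast_natAbs]; push_cast; exact h1)
    rw [Nat.cast_natAbs] at h6
    push_cast at h6
    exact h6
  · refine hfl (f' n).den ?_
    push_cast at h2
    rwa [abs_of_nonneg (Nat.cast_nonneg _)] at h2

end Pool.Agent.K3h74.SS
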