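import Mathlib
import Pool.Agent.K3h74.SS.Count

/-!
# Scales for germs, and classes of sparse factorisations
-/

set_option autoImplicit false

open Filter Topology

namespace Pool.Agent.K3h74.SS

open Pool.Agent.TH932.Germs Pool.Agent.TH551.SU Pool.Agent.TH551.SU.SUI
  Pool.Agent.TH551.SU.CS Pool.Agent.TH539.MQ

/-- the scale -/
noncomputable def LL (h : ℕ → ℕ) (n : ℕ) : ℝ :=
  Real.log (((n + 1 : ℕ) : ℝ) * (h n : ℝ) ^ (n + 1))

theorem LL_eq {h : ℕ → ℕ} (hh : ∀ n, 1 ≤ h n) (n : ℕ) :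
    LL h n = Real.log ((n + 1 : ℕ) : ℝ) + (n + 1 : ℕ) * Real.log (h n) := by
  have h1 : (1 : ℝ) ≤ h n := by exact_mod_cast hh n
  rw [LL, Real.log_mul (by positivity) (by positivity), Real.log_pow]

theorem LL_tendsto {h : ℕ → ℕ} (hh : ∀ n, 1 ≤ h n) : Tendsto (LL h) atTop atTop := by
  have h1 : Tendsto (fun n : ℕ => Real.log ((n + 1 : ℕ) : ℝ)) atTop atTop :=
    (Real.tendsto_log_atTop.comp tendsto_natCast_atTop_atTop).comp (tendsto_add_atTop_nat 1)
  refine tendsto_atTop_mono (fun n => ?_) h1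
  rw [LL_eq hh]
  have h2 : (1 : ℝ) ≤ h n := by exact_mod_cast hh n
  have h3 : 0 ≤ Real.log (h n) := Real.log_nonneg h2
  have h4 : (0 : ℝ) ≤ ((n + 1 : ℕ) : ℝ) * Real.log (h n) := by positivity
  linarith

theorem exp_LL {h : ℕ → ℕ} (hh : ∀ n, 1 ≤ h n) (n : ℕ) :
    Real.exp (LL h n) = (((n + 1) * h n ^ (n + 1) : ℕ) : ℝ) := by
  have h1 : (1 : ℝ) ≤ h n := by exact_mod_cast hh n
  rw [LL, Real.exp_log (by positivity)]
  push_cast
  ring

/-- polynomially bounded sequences are negligible -/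
theorem LL_big {h : ℕ → ℕ} (hh : ∀ n, 1 ≤ h n) (C : ℕ) (ε : ℝ) (hε : 0 < ε) :
    ∀ᶠ n : ℕ in (UU : Filter ℕ), ((C * h n ^ C : ℕ) : ℝ) ≤ Real.exp (ε * LL h n) := by
  apply ev_of_atTop
  obtain ⟨N, hN⟩ := exists_nat_gt ((C : ℝ) / ε)
  have h0 : Tendsto (fun n : ℕ => Real.log ((n + 1 : ℕ) : ℝ)) atTop atTop :=
    (Real.tendsto_log_atTop.comp tendsto_natCast_atTop_atTop).comp (tendsto_add_atTop_nat 1)
  filter_upwards [eventually_ge_atTop N,
    h0.eventually_ge_atTop (Real.log ((C : ℝ) + 1) / ε)] with n hn hn'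
  have h1 : (C : ℝ) ≤ ε * ((n + 1 : ℕ) : ℝ) := by
    have h2 : ((C : ℝ) / ε) < ((n + 1 : ℕ) : ℝ) := by
      refine hN.trans_le ?_
      exact_mod_cast (by omega : N ≤ n + 1)
    rw [div_lt_iff₀ hε] at h2
    linarith
  have hh1 : (1 : ℝ) ≤ h n := by exact_mod_cast hh n
  have h3 : 0 ≤ Real.log (h n) := Real.log_nonneg hh1
  have h4 : ((C * h n ^ C : ℕ) : ℝ) ≤ ((C : ℝ) + 1) * (h n : ℝ) ^ C := by
    push_cast
    exact mul_le_mul_of_nonneg_right (by linarith) (by positivity)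
  refine h4.trans ?_
  rw [← Real.log_le_iff_le_exp (by positivity), Real.log_mul (by positivity) (by positivity),
    Real.log_pow, LL_eq hh]
  have h5 : Real.log ((C : ℝ) + 1) ≤ ε * Real.log ((n + 1 : ℕ) : ℝ) := by
    rw [div_le_iff₀ hε] at hn'
    linarith
  have h6 : (C : ℝ) * Real.log (h n) ≤ (ε * ((n + 1 : ℕ) : ℝ)) * Real.log (h n) :=
    mul_le_mul_of_nonneg_right h1 h3
  linarith [mul_assoc ε ((n + 1 : ℕ) : ℝ) (Real.log (h n))]

theorem LL_KK {h : ℕ → ℕ} (hh : ∀ n, 1 ≤ h n) (C : ℕ) (c : ℕ → ℚ)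
    (hc : ∀ n, c n ∈ box (C * h n ^ C)) : gm c ∈ KK (LL h) (LL_tendsto hh) := by
  rw [mem_KK_iff]
  constructor
  · intro ε hε
    filter_upwards [LL_big hh C ε hε] with n hn
    exact (box_num (hc n)).1.trans hn
  · intro ε hε
    filter_upwards [LL_big hh C ε hε] with n hn
    have h1 := (box_num (hc n)).2.trans hn
    push_cast
    rw [abs_of_nonneg (Nat.cast_nonneg _)]
    exact h1

theorem LL_KK1 {h : ℕ → ℕ} (hh : ∀ n, 1 ≤ h n) (c : ℕ → ℚ)
    (hc : ∀ n, c n ∈ box (h n)) : gm c ∈ KK (LL h) (LL_tendsto hh) :=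
  LL_KK hh 1 c fun n => by
    rw [one_mul, pow_one]
    exact hc n

theorem KK_box {h : ℕ → ℕ} (hh : ∀ n, 1 ≤ h n) (c : ℕ → ℚ)
    (hc : gm c ∈ KK (LL h) (LL_tendsto hh)) :
    ∀ᶠ n in (UU : Filter ℕ), c n ∈ box ((n + 1) * h n ^ (n + 1)) := by
  rw [mem_KK_iff] at hc
  have h1 := hc.1 1 one_pos
  have h2 := hc.2 1 one_pos
  filter_upwards [h1, h2] with n h1 h2
  rw [one_mul, exp_LL hh] at h1 h2
  refine mem_box h1 ?_
  push_cast at h2 ⊢
  rwa [abs_of_nonneg (Nat.cast_nonneg _)] at h2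

theorem box_inv {n : ℕ} {x : ℚ} (hx : x ∈ box n) (hx0 : x ≠ 0) : x⁻¹ ∈ box n := by
  obtain ⟨h1, h2⟩ := box_num hx
  have hn : x.num ≠ 0 := Rat.num_ne_zero.2 hx0
  refine mem_box ?_ ?_
  · rw [Rat.num_inv]
    push_cast
    rw [abs_mul, Nat.abs_cast]
    have h3 : |((x.num.sign : ℤ) : ℝ)| ≤ 1 := by
      rcases lt_trichotomy x.num 0 with h | h | h
      · rw [Int.sign_eq_neg_one_of_neg h]; norm_num
      · rw [h]; norm_num
      · rw [Int.sign_eq_one_of_pos h]; norm_num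
    calc |((x.num.sign : ℤ) : ℝ)| * (x.den : ℝ) ≤ 1 * x.den :=
          mul_le_mul_of_nonneg_right h3 (Nat.cast_nonneg _)
      _ ≤ n := by rw [one_mul]; exact h2
  · rw [Rat.den_inv, if_neg hn, Nat.cast_natAbs]
    push_cast
    exact h1

theorem exists_repsQ (r : ℚ → ℚ → Prop) (X : Finset ℚ) (hrefl : ∀ x ∈ X, r x x)
    (hsymm : ∀ x ∈ X, ∀ y ∈ X, r x y → r y x) :
    ∃ R ⊆ X, (∀ x ∈ R, ∀ y ∈ R, x ≠ y → ¬ r x y) ∧ ∀ x ∈ X, ∃ y ∈ R, r x y := by
  classical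
  let good : Finset ℚ → Prop := fun Y => ∀ x ∈ Y, ∀ y ∈ Y, x ≠ y → ¬ r x y
  obtain ⟨Y, hY, hmax⟩ := Finset.exists_max_image (X.powerset.filter good) Finset.card
    ⟨∅, Finset.mem_filter.2 ⟨Finset.empty_mem_powerset _, fun x hx => absurd hx (Finset.notMem_empty _)⟩⟩
  rw [Finset.mem_filter, Finset.mem_powerset] at hY
  refine ⟨Y, hY.1, hY.2, ?_⟩
  intro x hx
  by_contra hcon
  push Not at hcon
  have hxY : x ∉ Y := fun h => hcon x h (hrefl x hx)
  have hgood : good (insert x Y) := by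
    intro z hz w hw hzw hr
    rw [Finset.mem_insert] at hz hw
    rcases hz with rfl | hz <;> rcases hw with rfl | hw
    · exact hzw rfl
    · exact hcon w hw hr
    · exact hcon z hz (hsymm z (hY.1 hz) w hx hr)
    · exact hY.2 z hz w hw hzw hr
  have h1 := hmax (insert x Y) (Finset.mem_filter.2 ⟨Finset.mem_powerset.2
    (Finset.insert_subset hx hY.1), hgood⟩)
  rw [Finset.card_insert_of_notMem hxY] at h1
  omega

/-- **Few classes of sparse factorisations.** Up to `S`-units and rational numbers of height at most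
`C h ^ C` a nonzero rational number has at most `C` factorisations into two short factors. -/
theorem classes {s : ℕ} (b : Fin s → ℕ) (hb : ∀ v, (b v).Prime) (hbi : Function.Injective b)
    (k : ℕ) :
    ∃ C : ℕ, ∀ h : ℕ, 1 ≤ h → ∀ N : ℚ, N ≠ 0 → ∀ X : Finset ℚ,
      (∀ x ∈ X, x ≠ 0 ∧ Sh b k h x ∧ Sh b k h (N / x)) →
      ∃ Y ⊆ X, Y.card ≤ C ∧ ∀ x ∈ X, ∃ y ∈ Y, ∃ u f : ℚ, IsSU b u ∧ f ∈ box (C * h ^ C) ∧
        x = u * f * y := by
  classical
  by_contra hcon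
  push Not at hcon
  choose h hh N hN X hX hbad using fun n : ℕ => hcon (n + 1)
  -- separated sets
  have hsep : ∀ n, ∃ Y ⊆ X n, n + 1 < Y.card ∧ ∀ x ∈ Y, ∀ y ∈ Y, x ≠ y → ∀ u f : ℚ,
      IsSU b u → f ∈ box ((n + 1) * h n ^ (n + 1)) → x ≠ u * f * y := by
    intro n
    obtain ⟨R, hR, h1, h2⟩ := exists_repsQ (fun x y => ∃ u f : ℚ, IsSU b u ∧
      f ∈ box ((n + 1) * h n ^ (n + 1)) ∧ x = u * f * y) (X n) (fun x _ => ⟨1, 1, isSU_one b,
        by
          have h3 : 1 ≤ (n + 1) * h n ^ (n + 1) :=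
            Nat.mul_pos (Nat.succ_pos n) (Nat.pow_pos (hh n))
          refine mem_box ?_ ?_
          · simpa using (by exact_mod_cast h3 : (1 : ℝ) ≤ (((n + 1) * h n ^ (n + 1) : ℕ) : ℝ))
          · simpa using (by exact_mod_cast h3 : (1 : ℝ) ≤ (((n + 1) * h n ^ (n + 1) : ℕ) : ℝ)),
        by ring⟩) (by
        rintro x hx y hy ⟨u, f, hu, hf, hxy⟩
        have hx0 := (hX n x hx).1
        have hu0 : u ≠ 0 := isSU_ne b hb hu
        have hf0 : f ≠ 0 := by
          rintro rfl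
          apply hx0
          rw [hxy]
          ring
        refine ⟨u⁻¹, f⁻¹, isSU_inv b hu, box_inv hf hf0, ?_⟩
        rw [hxy]
        field_simp)
    refine ⟨R, hR, ?_, ?_⟩
    · by_contra hle
      obtain ⟨x, hx, hx'⟩ := hbad n R hR (not_lt.1 hle)
      obtain ⟨y, hy, u, f, hu, hf, hxy⟩ := h2 x hx
      exact hx' y hy u f hu hf hxy
    · intro x hx y hy hxy u f hu hf heq
      exact h1 x hx y hy hxy ⟨u, f, hu, hf, heq⟩
  choose Y hYX hYcard hY using hsep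
  have hYinf : ∀ i : ℕ, ∀ᶠ n in (UU : Filter ℕ), i < (Y n).card := by
    intro i
    apply ev_of_atTop
    filter_upwards [eventually_ge_atTop i] with n hn
    have := hYcard n
    omega
  -- the germs
  let a : ℕ → ℕ → ℚ := fun i n => if hi : i < (Y n).card then
    ((Y n).equivFin.symm ⟨i, hi⟩ : ℚ) else 1
  have ha_mem : ∀ i n, i < (Y n).card → a i n ∈ Y n := by
    intro i n hi
    simp only [a, dif_pos hi]
    exact ((Y n).equivFin.symm ⟨i, hi⟩).2
  have ha_inj : ∀ i i' n, i ≠ i' → i < (Y n).card → i' < (Y n).card → a i n ≠ a i' n := by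
    intro i i' n hne hi hi' heq
    simp only [a, dif_pos hi, dif_pos hi'] at heq
    have h1 := (Y n).equivFin.symm.injective (Subtype.ext heq)
    exact hne (Fin.mk.inj_iff.1 h1)
  have hrep : ∀ y : ℕ → ℚ, (∀ᶠ n in (UU : Filter ℕ), Sh b k (h n) (y n)) →
      ∃ c u : Fin k → GG, (∀ j, c j ∈ KK (LL h) (LL_tendsto hh)) ∧
        (∀ j, u j ∈ {g : GG | GSU b g}) ∧ gm y = ∑ j, c j * u j := by
    intro y hy
    have hch : ∀ n, ∃ c u : Fin k → ℚ, (∀ j, c j ∈ box (h n)) ∧ (∀ j, IsSU b (u j)) ∧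
        (Sh b k (h n) (y n) → y n = ∑ j, c j * u j) := by
      intro n
      by_cases hs : Sh b k (h n) (y n)
      · obtain ⟨c, u, h1, h2, h3⟩ := hs
        exact ⟨c, u, h1, h2, fun _ => h3⟩
      · exact ⟨fun _ => 0, fun _ => 1, fun _ => zero_mem_box (hh n), fun _ => isSU_one b,
          fun h => absurd h hs⟩
    choose c u h1 h2 h3 using hch
    refine ⟨fun j => gm (fun n => c n j), fun j => gm (fun n => u n j),
      fun j => LL_KK1 hh _ fun n => h1 n j, fun j => ⟨_, rfl, fun n => h2 n j⟩, ?_⟩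
    simp only [gm_mul]
    rw [sum_gm, gm_eq]
    filter_upwards [hy] with n hn
    exact h3 n hn
  have hS := sys b hb hbi (LL h) (LL_tendsto hh)
  obtain ⟨i, i', hne, g, hg, f, hf, heq⟩ := hS.finiteness (κ := Fin k) (N := gm N)
    (gm_ne_zero.2 (Eventually.of_forall hN)) (fun i => gm (a i)) (fun i => gm (fun n => N n / a i n))
    (fun i => hrep _ (by
      filter_upwards [hYinf i] with n hn
      exact (hX n _ (hYX n (ha_mem i n hn))).2.1))
    (fun i => hrep _ (by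
      filter_upwards [hYinf i] with n hn
      exact (hX n _ (hYX n (ha_mem i n hn))).2.2))
    (fun i => by
      rw [gm_mul, gm_eq]
      filter_upwards [hYinf i] with n hn
      have := (hX n _ (hYX n (ha_mem i n hn))).1
      field_simp)
  obtain ⟨u, rfl, hu⟩ := hg
  obtain ⟨f', rfl⟩ := gm_surj f
  have hfb := KK_box hh f' hf
  simp only [gm_mul] at heq
  rw [gm_eq] at heq
  obtain ⟨n, h1, h3, h4, h5⟩ := (hfb.and (heq.and ((hYinf i).and (hYinf i')))).exists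
  exact hY n (a i n) (ha_mem i n h4) (a i' n) (ha_mem i' n h5) (ha_inj i i' n hne h4 h5)
    (u n) (f' n) (hu n) h1 h3

end Pool.Agent.K3h74.SS
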