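import Mathlib
import Pool.Agent.K3h74.SS.Gm
import Pool.Agent.H510R2.Div

/-!
# The part of a rational number prime to `S`, products with given gcds, popular values
-/

set_option autoImplicit false

namespace Pool.Agent.K3h74.SS

open Pool.Agent.TH551.SU Pool.Agent.TH539.MQ

/-- the absolute value of the part of `z` prime to the primes `b i` -/
noncomputable def sf {s : ℕ} (b : Fin s → ℕ) (z : ℚ) : ℚ :=
  |z| * ∏ i, (b i : ℚ) ^ (-(padicValRat (b i) z))

/-- `sf` as a homomorphism -/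
noncomputable def sfHom {s : ℕ} (b : Fin s → ℕ) (hb : ∀ v, (b v).Prime) : ℚ →*₀ ℚ where
  toFun := sf b
  map_zero' := by simp [sf]
  map_one' := by simp [sf]
  map_mul' x y := by
    by_cases hx : x = 0
    · simp [sf, hx]
    by_cases hy : y = 0
    · simp [sf, hy]
    simp only [sf]
    rw [abs_mul]
    have h1 : ∏ i, (b i : ℚ) ^ (-(padicValRat (b i) (x * y))) =
        (∏ i, (b i : ℚ) ^ (-(padicValRat (b i) x))) * ∏ i, (b i : ℚ) ^ (-(padicValRat (b i) y)) := by
      rw [← Finset.prod_mul_distrib]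
      refine Finset.prod_congr rfl fun i _ => ?_
      have : Fact (b i).Prime := ⟨hb i⟩
      rw [padicValRat.mul hx hy, neg_add, zpow_add₀ (by exact_mod_cast (hb i).ne_zero)]
    rw [h1]
    ring

section
variable {s : ℕ} (b : Fin s → ℕ) (hb : ∀ v, (b v).Prime) (hbi : Function.Injective b)

include hb in
theorem sf_pos {z : ℚ} (hz : z ≠ 0) : 0 < sf b z := by
  rw [sf]
  refine mul_pos (abs_pos.2 hz) (Finset.prod_pos fun i _ => zpow_pos ?_ _)
  exact_mod_cast (hb i).pos

include hb in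
theorem sf_mul (x y : ℚ) : sf b (x * y) = sf b x * sf b y := map_mul (sfHom b hb) x y

include hb in
theorem sf_div (x y : ℚ) : sf b (x / y) = sf b x / sf b y := map_div₀ (sfHom b hb) x y

include hb hbi in
theorem sf_prime (i : Fin s) : sf b (b i) = 1 := by
  rw [sf]
  have h0 : (b i : ℚ) ≠ 0 := by exact_mod_cast (hb i).ne_zero
  rw [Finset.prod_eq_single i]
  · have : Fact (b i).Prime := ⟨hb i⟩
    rw [padicValRat.self (hb i).one_lt, abs_of_nonneg (Nat.cast_nonneg _), zpow_neg, zpow_one,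
      mul_inv_cancel₀ h0]
  · intro j _ hj
    have : Fact (b j).Prime := ⟨hb j⟩
    have : Fact (b i).Prime := ⟨hb i⟩
    rw [padicValRat.of_nat, padicValNat_primes (fun h => hj (hbi h))]
    simp
  · intro h
    exact absurd (Finset.mem_univ _) h

include hb hbi in
theorem sf_isSU {x : ℚ} (hx : IsSU b x) : sf b x = 1 := by
  obtain ⟨σ, e, hσ, rfl⟩ := hx
  have h1 : sf b (∏ v, (b v : ℚ) ^ (e v)) = 1 := by
    have h2 : sfHom b hb (∏ v, (b v : ℚ) ^ (e v)) = 1 := by
      rw [map_prod]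
      refine Finset.prod_eq_one fun v _ => ?_
      rw [map_zpow₀]
      have h3 : sfHom b hb (b v) = 1 := sf_prime b hb hbi v
      rw [h3, one_zpow]
    exact h2
  rw [sf_mul b hb, h1, mul_one]
  rcases hσ with rfl | rfl
  · simp [sf]
  · simp [sf]

theorem isSU_of_sf {x : ℚ} (hx : x ≠ 0) (h : sf b x = 1) (hb : ∀ v, (b v).Prime) : IsSU b x := by
  have h1 : |x| = ∏ i, (b i : ℚ) ^ (padicValRat (b i) x) := by
    rw [sf] at h
    have h2 : ∏ i, (b i : ℚ) ^ (-(padicValRat (b i) x)) =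
        (∏ i, (b i : ℚ) ^ (padicValRat (b i) x))⁻¹ := by
      rw [← Finset.prod_inv_distrib]
      exact Finset.prod_congr rfl fun i _ => zpow_neg _ _
    have h3 : (∏ i, (b i : ℚ) ^ (padicValRat (b i) x)) ≠ 0 :=
      Finset.prod_ne_zero_iff.2 fun i _ => zpow_ne_zero _ (by exact_mod_cast (hb i).ne_zero)
    rw [h2, ← div_eq_mul_inv, div_eq_one_iff_eq h3] at h
    exact h
  rcases lt_or_gt_of_ne hx with hneg | hpos
  · refine ⟨-1, fun i => padicValRat (b i) x, Or.inr rfl, ?_⟩
    rw [← h1, abs_of_neg hneg]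
    push_cast
    ring
  · refine ⟨1, fun i => padicValRat (b i) x, Or.inl rfl, ?_⟩
    rw [← h1, abs_of_pos hpos]
    push_cast
    ring

include hb in
theorem isSU_of_sf_eq {x y : ℚ} (hx : x ≠ 0) (hy : y ≠ 0) (h : sf b x = sf b y) :
    IsSU b (x / y) := by
  refine isSU_of_sf b (div_ne_zero hx hy) ?_ hb
  rw [sf_div b hb, h, div_self (sf_pos b hb hy).ne']

include hb hbi in
/-- the part of a natural number prime to `S` -/
theorem sf_nat (n : ℕ) (hn : 1 ≤ n) : ∃ m : ℕ, 1 ≤ m ∧ m ≤ n ∧ sf b n = m := by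
  have hdvd : ∏ i, (b i) ^ (padicValNat (b i) n) ∣ n := by
    refine Finset.prod_dvd_of_isRelPrime ?_ fun i _ => pow_padicValNat_dvd
    intro i _ j _ hij
    exact Nat.coprime_iff_isRelPrime.1 (Nat.Coprime.pow _ _
      ((Nat.coprime_primes (hb i) (hb j)).2 fun h => hij (hbi h)))
  obtain ⟨m, hm⟩ := hdvd
  have hpos : 0 < ∏ i, (b i) ^ (padicValNat (b i) n) :=
    Finset.prod_pos fun i _ => Nat.pow_pos (hb i).pos
  have hm1 : 1 ≤ m := by
    rcases Nat.eq_zero_or_pos m with h | h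
    · rw [h, mul_zero] at hm
      omega
    · exact h
  refine ⟨m, hm1, ?_, ?_⟩
  · rw [hm]
    exact Nat.le_mul_of_pos_left _ hpos
  · rw [sf, abs_of_nonneg (Nat.cast_nonneg _)]
    have h2 : ∏ i, (b i : ℚ) ^ (-(padicValRat (b i) (n : ℚ))) =
        ((∏ i, (b i) ^ (padicValNat (b i) n) : ℕ) : ℚ)⁻¹ := by
      push_cast
      rw [← Finset.prod_inv_distrib]
      refine Finset.prod_congr rfl fun i _ => ?_
      rw [padicValRat.of_nat, zpow_neg, zpow_natCast]
    rw [h2]
    have h3 : ((∏ i, (b i) ^ (padicValNat (b i) n) : ℕ) : ℚ) ≠ 0 := by exact_mod_cast hpos.ne'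
    have h4 : (n : ℚ) = ((∏ i, (b i) ^ (padicValNat (b i) n) : ℕ) : ℚ) * m := by
      exact_mod_cast hm
    rw [mul_inv_eq_iff_eq_mul₀ h3, mul_comm]
    exact h4

include hb hbi in
theorem sf_box {n : ℕ} {x : ℚ} (hx : x ∈ box n) (hx0 : x ≠ 0) : sf b x ∈ box n := by
  obtain ⟨h1, h2⟩ := box_num hx
  have hn : 1 ≤ x.num.natAbs := Int.natAbs_pos.2 (Rat.num_ne_zero.2 hx0)
  obtain ⟨m, hm1, hm2, hm3⟩ := sf_nat b hb hbi x.num.natAbs hn
  obtain ⟨m', hm1', hm2', hm3'⟩ := sf_nat b hb hbi x.den x.den_pos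
  have habs : sf b x = sf b |x| := by
    rcases abs_choice x with h | h
    · rw [h]
    · rw [h]
      have h3 : sf b (-1) = 1 := by simp [sf]
      rw [neg_eq_neg_one_mul, sf_mul b hb, h3, one_mul]
  have e : |x| = (x.num.natAbs : ℚ) / (x.den : ℚ) := by
    rw [Rat.abs_def, Rat.divInt_eq_div]
    push_cast
    rw [Nat.cast_natAbs]
    push_cast
    rfl
  rw [habs, e, sf_div b hb, hm3, hm3']
  have h3 : (x.num.natAbs : ℝ) ≤ n := by
    rw [Nat.cast_natAbs]
    push_cast
    exact h1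
  have h4 : x.num.natAbs ≤ n := by exact_mod_cast h3
  have h5 : x.den ≤ n := by exact_mod_cast h2
  have h6 := mem_box' (n := n) (m : ℤ) m' (by
    rw [Nat.abs_cast]
    exact_mod_cast hm2.trans h4) hm1' (hm2'.trans h5)
  push_cast at h6
  exact h6

end

/-- the numerator and the denominator of a factor of a positive rational number -/
theorem gcd_factor {α β : ℚ} (hα : 0 < α) (hβ : 0 < β) :
    ∃ e1 ∈ ((α * β).num.natAbs).divisors, ∃ e2 ∈ ((α * β).den).divisors,
      α = ((Nat.gcd α.num.natAbs β.den * e1 : ℕ) : ℚ) / ((Nat.gcd α.den β.num.natAbs * e2 : ℕ) : ℚ) := by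
  set a := α.num.natAbs with ha
  set a' := α.den with ha'
  set c := β.num.natAbs with hc
  set c' := β.den with hc'
  have hα' : α = (a : ℚ) / a' := by
    have h1 : (a : ℤ) = α.num := Int.natAbs_of_nonneg (Rat.num_pos.2 hα).le
    have h2 : (a : ℚ) = (α.num : ℚ) := by exact_mod_cast h1
    rw [h2]
    exact (Rat.num_div_den α).symm
  have hβ' : β = (c : ℚ) / c' := by
    have h1 : (c : ℤ) = β.num := Int.natAbs_of_nonneg (Rat.num_pos.2 hβ).le
    have h2 : (c : ℚ) = (β.num : ℚ) := by exact_mod_cast h1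
    rw [h2]
    exact (Rat.num_div_den β).symm
  have ha0 : 0 < a := Int.natAbs_pos.2 (Rat.num_ne_zero.2 hα.ne')
  have ha0' : 0 < a' := α.den_pos
  have hc0 : 0 < c := Int.natAbs_pos.2 (Rat.num_ne_zero.2 hβ.ne')
  have hc0' : 0 < c' := β.den_pos
  have hcop : Nat.Coprime a a' := α.reduced
  have hcop' : Nat.Coprime c c' := β.reduced
  set d1 := Nat.gcd a c' with hd1
  set d2 := Nat.gcd a' c with hd2
  have hd10 : 0 < d1 := Nat.gcd_pos_of_pos_left _ ha0
  have hd20 : 0 < d2 := Nat.gcd_pos_of_pos_left _ ha0'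
  obtain ⟨e1, he1⟩ : d1 ∣ a := Nat.gcd_dvd_left _ _
  obtain ⟨g1, hg1⟩ : d1 ∣ c' := Nat.gcd_dvd_right _ _
  obtain ⟨e2, he2⟩ : d2 ∣ a' := Nat.gcd_dvd_left _ _
  obtain ⟨g2, hg2⟩ : d2 ∣ c := Nat.gcd_dvd_right _ _
  have he10 : 0 < e1 := Nat.pos_of_ne_zero (by rintro rfl; omega)
  have hg10 : 0 < g1 := Nat.pos_of_ne_zero (by rintro rfl; omega)
  have he20 : 0 < e2 := Nat.pos_of_ne_zero (by rintro rfl; omega)
  have hg20 : 0 < g2 := Nat.pos_of_ne_zero (by rintro rfl; omega)
  have hc1 : Nat.Coprime e1 g1 := by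
    have h1 : Nat.gcd (d1 * e1) (d1 * g1) = d1 := by rw [← he1, ← hg1]
    rw [Nat.gcd_mul_left] at h1
    exact Nat.eq_of_mul_eq_mul_left hd10 (by rw [h1, mul_one])
  have hc2 : Nat.Coprime e2 g2 := by
    have h1 : Nat.gcd (d2 * e2) (d2 * g2) = d2 := by rw [← he2, ← hg2]
    rw [Nat.gcd_mul_left] at h1
    exact Nat.eq_of_mul_eq_mul_left hd20 (by rw [h1, mul_one])
  have hc3 : Nat.Coprime e1 e2 := by
    rw [he1, he2] at hcop
    exact (Nat.Coprime.coprime_mul_left hcop).coprime_mul_left_right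
  have hc4 : Nat.Coprime g2 g1 := by
    rw [hg2, hg1] at hcop'
    exact (Nat.Coprime.coprime_mul_left hcop').coprime_mul_left_right
  have hcopR : Nat.Coprime (e1 * g2) (e2 * g1) :=
    Nat.Coprime.mul_left (Nat.Coprime.mul_right hc3 hc1) (Nat.Coprime.mul_right hc2.symm hc4)
  have hR : α * β = ((e1 * g2 : ℕ) : ℤ) / ((e2 * g1 : ℕ) : ℤ) := by
    rw [hα', hβ', he1, he2, hg1, hg2]
    push_cast
    have h1 : (d1 : ℚ) ≠ 0 := by exact_mod_cast hd10.ne'
    have h2 : (d2 : ℚ) ≠ 0 := by exact_mod_cast hd20.ne'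
    have h3 : (e2 : ℚ) ≠ 0 := by exact_mod_cast he20.ne'
    have h4 : (g1 : ℚ) ≠ 0 := by exact_mod_cast hg10.ne'
    field_simp
  have hnum : (α * β).num = ((e1 * g2 : ℕ) : ℤ) := by
    rw [hR]
    exact Rat.num_div_eq_of_coprime (by exact_mod_cast Nat.mul_pos he20 hg10)
      (by rw [Int.natAbs_natCast, Int.natAbs_natCast]; exact hcopR)
  have hden : (α * β).den = e2 * g1 := by
    have h2 : (0 : ℤ) < ((e2 * g1 : ℕ) : ℤ) := by exact_mod_cast Nat.mul_pos he20 hg10
    have h3 : Nat.Coprime (((e1 * g2 : ℕ) : ℤ)).natAbs (((e2 * g1 : ℕ) : ℤ)).natAbs := by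
      rw [Int.natAbs_natCast, Int.natAbs_natCast]
      exact hcopR
    have h1 : ((α * β).den : ℤ) = ((e2 * g1 : ℕ) : ℤ) := by
      rw [hR]
      exact Rat.den_div_eq_of_coprime h2 h3
    exact_mod_cast h1
  refine ⟨e1, ?_, e2, ?_, ?_⟩
  · rw [Nat.mem_divisors, hnum, Int.natAbs_natCast]
    exact ⟨Dvd.intro _ rfl, (Nat.mul_pos he10 hg20).ne'⟩
  · rw [Nat.mem_divisors, hden]
    exact ⟨Dvd.intro _ rfl, (Nat.mul_pos he20 hg10).ne'⟩
  · rw [← he1, ← he2]
    exact hα'

/-- a popular value of a function which takes few values on all lines -/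
theorem popular {α β γ : Type} [DecidableEq γ] (A : Finset α) (B : Finset β) (hA : A.Nonempty)
    (hB : B.Nonempty) (g : α → β → γ) (t : ℕ)
    (h1 : ∀ x ∈ A, (B.image (g x)).card ≤ t) (h2 : ∀ y ∈ B, (A.image fun x => g x y).card ≤ t) :
    ∃ v : γ, A.card * B.card ≤ t ^ 3 * ((A ×ˢ B).filter fun p => g p.1 p.2 = v).card := by
  classical
  -- popular values on the lines
  have hv : ∀ x ∈ A, ∃ v : γ, B.card ≤ t * (B.filter fun y => g x y = v).card := by
    intro x hx
    by_contra hcon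
    push Not at hcon
    obtain ⟨y0, hy0⟩ := hB
    have h3 : B.card = ∑ v ∈ B.image (g x), (B.filter fun y => g x y = v).card :=
      Finset.card_eq_sum_card_image _ _
    have h4 : t * B.card < (B.image (g x)).card * B.card := by
      calc t * B.card = ∑ v ∈ B.image (g x), t * (B.filter fun y => g x y = v).card := by
            rw [← Finset.mul_sum, ← h3]
        _ < ∑ v ∈ B.image (g x), B.card :=
            Finset.sum_lt_sum_of_nonempty ⟨_, Finset.mem_image_of_mem _ hy0⟩ fun v _ => hcon v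
        _ = (B.image (g x)).card * B.card := by rw [Finset.sum_const, smul_eq_mul]
    exact absurd h4 (not_lt.2 (Nat.mul_le_mul_right _ (h1 x hx)))
  have hγ : Nonempty γ := ⟨g hA.choose hB.choose⟩
  choose! v hv using hv
  -- a good line
  have hy : ∃ y ∈ B, A.card ≤ t * (A.filter fun x => g x y = v x).card := by
    by_contra hcon
    push Not at hcon
    have h3 : ∑ y ∈ B, t * (A.filter fun x => g x y = v x).card < ∑ y ∈ B, A.card :=
      Finset.sum_lt_sum_of_nonempty hB fun y hy => hcon y hy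
    have h4 : ∑ y ∈ B, (A.filter fun x => g x y = v x).card =
        ∑ x ∈ A, (B.filter fun y => g x y = v x).card := by
      simp only [Finset.card_filter]
      exact Finset.sum_comm
    rw [← Finset.mul_sum, h4, Finset.mul_sum, Finset.sum_const, smul_eq_mul] at h3
    have h5 : ∑ x ∈ A, B.card ≤ ∑ x ∈ A, t * (B.filter fun y => g x y = v x).card :=
      Finset.sum_le_sum fun x hx => hv x hx
    rw [Finset.sum_const, smul_eq_mul] at h5
    nlinarith
  obtain ⟨y0, hy0, hy0'⟩ := hy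
  set A0 := A.filter fun x => g x y0 = v x with hA0
  have ht0 : 0 < t := by
    rcases Nat.eq_zero_or_pos t with h | h
    · rw [h, zero_mul] at hy0'
      have := Finset.card_pos.2 hA
      omega
    · exact h
  have hA0ne : A0.Nonempty := by
    rw [Finset.nonempty_iff_ne_empty]
    intro h
    rw [h, Finset.card_empty, mul_zero] at hy0'
    have := Finset.card_pos.2 hA
    omega
  have hw : ∃ w : γ, A0.card ≤ t * (A0.filter fun x => v x = w).card := by
    by_contra hcon
    push Not at hcon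
    have h3 : A0.card = ∑ w ∈ A0.image v, (A0.filter fun x => v x = w).card :=
      Finset.card_eq_sum_card_image _ _
    obtain ⟨x0, hx0⟩ := hA0ne
    have h4 : t * A0.card < (A0.image v).card * A0.card := by
      calc t * A0.card = ∑ w ∈ A0.image v, t * (A0.filter fun x => v x = w).card := by
            rw [← Finset.mul_sum, ← h3]
        _ < ∑ w ∈ A0.image v, A0.card :=
            Finset.sum_lt_sum_of_nonempty ⟨_, Finset.mem_image_of_mem _ hx0⟩ fun w _ => hcon w
        _ = (A0.image v).card * A0.card := by rw [Finset.sum_const, smul_eq_mul]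
    have h5 : (A0.image v).card ≤ t := by
      refine (Finset.card_le_card ?_).trans (h2 y0 hy0)
      intro w hw
      obtain ⟨x, hx, rfl⟩ := Finset.mem_image.1 hw
      rw [hA0, Finset.mem_filter] at hx
      exact Finset.mem_image.2 ⟨x, hx.1, hx.2⟩
    exact absurd h4 (not_lt.2 (Nat.mul_le_mul_right _ h5))
  obtain ⟨w, hw⟩ := hw
  refine ⟨w, ?_⟩
  set A1 := A0.filter fun x => v x = w with hA1
  have h3 : A1.card * B.card ≤ t * ((A ×ˢ B).filter fun p => g p.1 p.2 = w).card := by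
    have h4 : ∑ x ∈ A1, (B.filter fun y => g x y = w).card ≤
        ((A ×ˢ B).filter fun p => g p.1 p.2 = w).card := by
      have h5 : ((A ×ˢ B).filter fun p => g p.1 p.2 = w).card =
          ∑ x ∈ A, (B.filter fun y => g x y = w).card := by
        simp only [Finset.card_filter]
        exact Finset.sum_product _ _ _
      rw [h5]
      exact Finset.sum_le_sum_of_subset ((Finset.filter_subset _ _).trans (Finset.filter_subset _ _))
    calc A1.card * B.card = ∑ x ∈ A1, B.card := by rw [Finset.sum_const, smul_eq_mul]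
      _ ≤ ∑ x ∈ A1, t * (B.filter fun y => g x y = w).card := by
          refine Finset.sum_le_sum fun x hx => ?_
          rw [hA1, Finset.mem_filter, hA0, Finset.mem_filter] at hx
          rw [← hx.2]
          exact hv x hx.1.1
      _ = t * ∑ x ∈ A1, (B.filter fun y => g x y = w).card := by rw [Finset.mul_sum]
      _ ≤ _ := Nat.mul_le_mul_left _ h4
  calc A.card * B.card ≤ (t * (t * A1.card)) * B.card :=
        Nat.mul_le_mul_right _ (hy0'.trans (Nat.mul_le_mul_left _ hw))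
    _ = t * t * (A1.card * B.card) := by ring
    _ ≤ t * t * (t * ((A ×ˢ B).filter fun p => g p.1 p.2 = w).card) := Nat.mul_le_mul_left _ h3
    _ = t ^ 3 * ((A ×ˢ B).filter fun p => g p.1 p.2 = w).card := by ring

/-- the largest number of divisors of the numbers up to `H` -/
def tau (H : ℕ) : ℕ := (Finset.Icc 1 H).sup fun n => n.divisors.card

theorem le_tau {n H : ℕ} (h0 : 1 ≤ n) (h : n ≤ H) : n.divisors.card ≤ tau H :=
  Finset.le_sup (f := fun n => n.divisors.card) (Finset.mem_Icc.2 ⟨h0, h⟩)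

theorem tau_bound (ε : ℝ) (hε : 0 < ε) : ∃ C : ℝ, 1 ≤ C ∧ ∀ H : ℕ, 1 ≤ H →
    (tau H : ℝ) ≤ C * (H : ℝ) ^ ε := by
  obtain ⟨C, hC, hC'⟩ := Pool.Agent.H510R2.divisor_bound ε hε
  refine ⟨max C 1, le_max_right _ _, fun H hH => ?_⟩
  obtain ⟨n, hn, hn'⟩ := Finset.exists_mem_eq_sup (Finset.Icc 1 H)
    ⟨1, Finset.mem_Icc.2 ⟨le_rfl, hH⟩⟩ (fun n => n.divisors.card)
  rw [tau, hn']
  rw [Finset.mem_Icc] at hn
  refine (hC' n hn.1).trans ?_
  refine mul_le_mul (le_max_left _ _) ?_ (by positivity) (by positivity)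
  exact Real.rpow_le_rpow (Nat.cast_nonneg _) (by exact_mod_cast hn.2) hε.le

end Pool.Agent.K3h74.SS
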