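import Mathlib

set_option autoImplicit false

/-! # Weights: a torsion-free quotient of the multiplicative group of a field

Generic form of `Pool.Agent.TH551.SU.WT` (same proof). -/

namespace Pool.Agent.K3h74.SS.WT

variable {F : Type} [Field F] (K : Subfield F)

/-- the cast of an integer vector -/
def cst {r : ℕ} (z : Fin r → ℤ) : Fin r → ℚ := fun j => (z j : ℚ)

theorem cst_inj {r : ℕ} {z z' : Fin r → ℤ} (h : cst z = cst z') : z = z' := by
  funext j
  have := congrFun h j
  unfold cst at this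
  exact_mod_cast this

/-- monomials -/
noncomputable def mon {r : ℕ} (u : Fin r → F) (z : Fin r → ℤ) : F := ∏ j, u j ^ (z j)

theorem mon_add {r : ℕ} {u : Fin r → F} (hu : ∀ j, u j ≠ 0) (z z' : Fin r → ℤ) :
    mon u (fun j => z j + z' j) = mon u z * mon u z' := by
  unfold mon
  rw [← Finset.prod_mul_distrib]
  exact Finset.prod_congr rfl fun j _ => zpow_add₀ (hu j) _ _

theorem mon_mul {r : ℕ} (u : Fin r → F) (z : Fin r → ℤ) (k : ℤ) :
    mon u (fun j => k * z j) = mon u z ^ k := by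
  unfold mon
  rw [← Finset.prod_zpow]
  refine Finset.prod_congr rfl fun j _ => ?_
  show u j ^ (k * z j) = _
  rw [mul_comm, zpow_mul]

theorem mon_sub {r : ℕ} {u : Fin r → F} (hu : ∀ j, u j ≠ 0) (z z' : Fin r → ℤ) :
    mon u (fun j => z j - z' j) = mon u z / mon u z' := by
  unfold mon
  rw [← Finset.prod_div_distrib]
  exact Finset.prod_congr rfl fun j _ => zpow_sub₀ (hu j) _ _

theorem mon_single {r : ℕ} (u : Fin r → F) (j : Fin r) :
    mon u (fun i => if i = j then 1 else 0) = u j := by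
  unfold mon
  rw [Finset.prod_eq_single j]
  · simp
  · intro i _ hi
    show u i ^ (if i = j then (1 : ℤ) else 0) = 1
    rw [if_neg hi, zpow_zero]
  · intro h
    exact absurd (Finset.mem_univ j) h

/-- the span of the relations -/
noncomputable def Wsp (K : Subfield F) {r : ℕ} (u : Fin r → F) :
    Submodule ℚ (Fin r → ℚ) :=
  Submodule.span ℚ {x | ∃ z : Fin r → ℤ, x = cst z ∧ mon u z ∈ K}

theorem Wsp_mul {r : ℕ} {u : Fin r → F}
    (hu : ∀ j, u j ≠ 0) {x : Fin r → ℚ} (hx : x ∈ Wsp K u) :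
    ∃ N : ℕ, N ≠ 0 ∧ ∃ z : Fin r → ℤ, cst z = (N : ℚ) • x ∧ mon u z ∈ K := by
  unfold Wsp at hx
  induction hx using Submodule.span_induction with
  | mem x hx =>
    obtain ⟨z, rfl, hz⟩ := hx
    exact ⟨1, one_ne_zero, z, by simp, hz⟩
  | zero =>
    refine ⟨1, one_ne_zero, fun _ => 0, ?_, ?_⟩
    · funext j
      simp [cst]
    · have : mon u (fun _ => 0) = 1 := by simp [mon]
      rw [this]
      exact (K).one_mem
  | add x y _ _ ihx ihy =>
    obtain ⟨N, hN, z, hz, hzK⟩ := ihx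
    obtain ⟨N', hN', z', hz', hzK'⟩ := ihy
    refine ⟨N * N', mul_ne_zero hN hN', fun j => (N' : ℤ) * z j + (N : ℤ) * z' j, ?_, ?_⟩
    · funext j
      have h1 := congrFun hz j
      have h2 := congrFun hz' j
      unfold cst at *
      simp only [Pi.smul_apply, Pi.add_apply, smul_eq_mul] at *
      push_cast
      rw [h1, h2]
      ring
    · rw [mon_add hu (fun j => (N' : ℤ) * z j) (fun j => (N : ℤ) * z' j), mon_mul, mon_mul]
      exact (K).mul_mem ((K).zpow_mem hzK _) ((K).zpow_mem hzK' _)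
  | smul a x _ ih =>
    obtain ⟨N, hN, z, hz, hzK⟩ := ih
    refine ⟨a.den * N, mul_ne_zero a.den_ne_zero hN, fun j => a.num * z j, ?_, ?_⟩
    · funext j
      have h1 := congrFun hz j
      unfold cst at *
      simp only [Pi.smul_apply, smul_eq_mul] at *
      push_cast
      rw [h1]
      have h2 : (a.num : ℚ) = a * a.den := (Rat.mul_den_eq_num a).symm
      rw [h2]
      ring
    · rw [mon_mul]
      exact (K).zpow_mem hzK _

/-- an integer vector in the span is a relation -/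
theorem Wsp_int (hroot : ∀ (g : F) (m : ℕ), m ≠ 0 → g ^ m ∈ K → g ∈ K) {r : ℕ} {u : Fin r → F}
    (hu : ∀ j, u j ≠ 0) {z : Fin r → ℤ} (hz : cst z ∈ Wsp K u) : mon u z ∈ K := by
  obtain ⟨N, hN, z', h1, h2⟩ := Wsp_mul K hu hz
  have h3 : z' = fun j => (N : ℤ) * z j := by
    apply cst_inj
    rw [h1]
    funext j
    simp [cst]
  rw [h3, mon_mul, zpow_natCast] at h2
  exact hroot _ N hN h2

theorem wt_gen (hroot : ∀ (g : F) (m : ℕ), m ≠ 0 → g ^ m ∈ K → g ∈ K) (r : ℕ) (u : Fin r → F)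
    (hu : ∀ j, u j ≠ 0) : ∃ l : Fin r → ℕ,
      (∀ α β : Fin r → ℕ, ∑ j, α j = ∑ j, β j →
        (∏ j, u j ^ (α j)) / (∏ j, u j ^ (β j)) ∈ K → ∑ j, α j * l j = ∑ j, β j * l j) ∧
      ∀ j j', l j = l j' → u j / u j' ∈ K := by
  classical
  -- the functional
  obtain ⟨f, hf⟩ := Module.exists_dual_forall_apply_ne_zero (K := ℚ)
    (M := (Fin r → ℚ) ⧸ Wsp K u)
    (fun p : {p : Fin r × Fin r // u p.1 / u p.2 ∉ K} =>
      (Wsp K u).mkQ (cst fun i => (if i = p.1.1 then 1 else 0) - (if i = p.1.2 then 1 else 0)))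
    (by
      rintro ⟨⟨j, j'⟩, hp⟩ h0
      rw [Submodule.mkQ_apply, Submodule.Quotient.mk_eq_zero] at h0
      have h1 := Wsp_int K hroot hu h0
      rw [mon_sub hu, mon_single, mon_single] at h1
      exact hp h1)
  obtain ⟨lam, hlam⟩ : ∃ lam : (Fin r → ℚ) →ₗ[ℚ] ℚ, lam = f.comp (Wsp K u).mkQ := ⟨_, rfl⟩
  have hlam0 : ∀ x ∈ Wsp K u, lam x = 0 := by
    intro x hx
    rw [hlam, LinearMap.comp_apply, Submodule.mkQ_apply, (Submodule.Quotient.mk_eq_zero _).2 hx,
      map_zero]
  obtain ⟨q, hq⟩ : ∃ q : Fin r → ℚ, q = fun j => lam (Pi.single j 1) := ⟨_, rfl⟩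
  have hlamx : ∀ x : Fin r → ℚ, lam x = ∑ j, x j * q j := by
    intro x
    rw [LinearMap.pi_apply_eq_sum_univ lam x]
    refine Finset.sum_congr rfl fun j _ => ?_
    rw [smul_eq_mul, hq]
    congr 2
    funext i
    rw [Pi.single_apply]
    simp [eq_comm]
  -- common denominator
  obtain ⟨D, hD⟩ : ∃ D : ℕ, D = ∏ j, (q j).den := ⟨_, rfl⟩
  have hD0 : D ≠ 0 := by
    rw [hD]
    exact Finset.prod_ne_zero_iff.2 fun j _ => (q j).den_ne_zero
  have hD0' : (D : ℚ) ≠ 0 := by exact_mod_cast hD0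
  have hc : ∀ j, ∃ c : ℤ, (c : ℚ) = D * q j := by
    intro j
    obtain ⟨e, he⟩ : (q j).den ∣ D := by
      rw [hD]
      exact Finset.dvd_prod_of_mem _ (Finset.mem_univ j)
    refine ⟨e * (q j).num, ?_⟩
    rw [he]
    push_cast
    have h2 : ((q j).num : ℚ) = q j * (q j).den := (Rat.mul_den_eq_num (q j)).symm
    rw [h2]
    ring
  choose c hc using hc
  obtain ⟨T, hT⟩ : ∃ T : ℕ, T = ∑ j, (c j).natAbs := ⟨_, rfl⟩
  have hcT : ∀ j, 0 ≤ c j + T := by
    intro j
    have h1 : (c j).natAbs ≤ T := by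
      rw [hT]
      exact Finset.single_le_sum (f := fun j => (c j).natAbs) (fun _ _ => Nat.zero_le _)
        (Finset.mem_univ j)
    omega
  refine ⟨fun j => (c j + T).toNat, ?_, ?_⟩
  · intro α β hαβ h
    have h1 : (cst fun j => (α j : ℤ) - (β j : ℤ)) ∈ Wsp K u := by
      apply Submodule.subset_span
      refine ⟨_, rfl, ?_⟩
      rw [mon_sub hu]
      unfold mon
      simp only [zpow_natCast]
      exact h
    have h2 := hlam0 _ h1
    rw [hlamx] at h2
    have h3 : ∑ j, ((α j : ℤ) - (β j : ℤ)) * c j = 0 := by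
      have h4 : ((∑ j, ((α j : ℤ) - (β j : ℤ)) * c j : ℤ) : ℚ) =
          D * ∑ j, (cst fun j => (α j : ℤ) - (β j : ℤ)) j * q j := by
        push_cast
        rw [Finset.mul_sum]
        refine Finset.sum_congr rfl fun j _ => ?_
        rw [hc j]
        unfold cst
        push_cast
        ring
      rw [h2, mul_zero] at h4
      exact_mod_cast h4
    have h5 : ((∑ j, α j : ℕ) : ℤ) = ((∑ j, β j : ℕ) : ℤ) := by rw [hαβ]
    have h6 : ((∑ j, α j * (c j + T).toNat : ℕ) : ℤ) =
        ((∑ j, β j * (c j + T).toNat : ℕ) : ℤ) := by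
      push_cast at h5 ⊢
      have h7 : ∀ j, (((c j + (T : ℤ)).toNat : ℕ) : ℤ) = c j + T := fun j =>
        Int.toNat_of_nonneg (hcT j)
      simp only [h7]
      have h8 : ∑ j, (α j : ℤ) * (c j + T) - ∑ j, (β j : ℤ) * (c j + T) =
          ∑ j, ((α j : ℤ) - (β j : ℤ)) * c j + (∑ j, (α j : ℤ) - ∑ j, (β j : ℤ)) * T := by
        rw [← Finset.sum_sub_distrib, ← Finset.sum_sub_distrib, Finset.sum_mul,
          ← Finset.sum_add_distrib]
        refine Finset.sum_congr rfl fun j _ => ?_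
        ring
      rw [h3, h5, sub_self, zero_mul, add_zero] at h8
      linarith
    exact_mod_cast h6
  · intro j j' hl
    by_contra hcon
    have h1 : c j = c j' := by
      have h2 := hcT j
      have h3 := hcT j'
      have h4 : (c j + (T : ℤ)).toNat = (c j' + (T : ℤ)).toNat := hl
      omega
    have h2 : q j = q j' := by
      have h3 : (D : ℚ) * q j = D * q j' := by rw [← hc, ← hc, h1]
      exact mul_left_cancel₀ hD0' h3
    apply hf ⟨(j, j'), hcon⟩
    have h3 : f ((Wsp K u).mkQ (cst fun i => (if i = j then 1 else 0) -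
        (if i = j' then 1 else 0))) = lam (cst fun i => (if i = j then 1 else 0) -
        (if i = j' then 1 else 0)) := by rw [hlam]; rfl
    show f ((Wsp K u).mkQ (cst fun i => (if i = j then 1 else 0) -
        (if i = j' then 1 else 0))) = 0
    rw [h3, hlamx]
    have h4 : ∀ i, (cst fun i => (if i = j then 1 else 0) - (if i = j' then 1 else 0)) i * q i =
        (if i = j then q i else 0) - (if i = j' then q i else 0) := by
      intro i
      unfold cst
      push_cast
      split_ifs <;> ring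
    simp only [h4]
    rw [Finset.sum_sub_distrib, Finset.sum_ite_eq', Finset.sum_ite_eq']
    simp [h2]

end Pool.Agent.K3h74.SS.WT
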